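import Mathlib
import Pool.Agent.H340R2.LW

set_option autoImplicit false

/-!
# Two binomial relations between exponentials and powers of one number
-/

namespace Pool.Agent.H118.EP

open Finset Pool.Agent.H340R2.LW

/-- Lindemann-Weierstrass with repeated exponents -/
theorem lw_group {ι : Type*} (s : Finset ι) (a c : ι → ℂ) (ha : ∀ i ∈ s, IsAlgebraic ℚ (a i))
    (hc : ∀ i ∈ s, IsAlgebraic ℚ (c i)) (h : ∑ i ∈ s, c i * Complex.exp (a i) = 0) (g : ℂ) :
    ∑ i ∈ s with a i = g, c i = 0 := by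
  classical
  by_cases hg : g ∈ s.image a
  · have h1 : ∑ x ∈ s.image a, (∑ i ∈ s with a i = x, c i) * Complex.exp x = 0 := by
      rw [← h, ← Finset.sum_fiberwise_of_maps_to (g := a) (t := s.image a)
        (fun i hi => Finset.mem_image_of_mem a hi)]
      refine Finset.sum_congr rfl fun x _ => ?_
      rw [Finset.sum_mul]
      refine Finset.sum_congr rfl fun i hi => ?_
      rw [(Finset.mem_filter.1 hi).2]
    refine lindemann_weierstrass (s.image a) id (fun x => ∑ i ∈ s with a i = x, c i) ?_ ?_ ?_ h1 g hg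
    · intro x hx
      obtain ⟨i, hi, rfl⟩ := Finset.mem_image.1 hx
      exact ha i hi
    · intro x _
      refine Finset.sum_induction _ (fun z => IsAlgebraic ℚ z) (fun _ _ => IsAlgebraic.add)
        isAlgebraic_zero fun i hi => hc i (Finset.mem_filter.1 hi).1
    · exact fun x _ y _ hxy => hxy
  · have h1 : s.filter (fun i => a i = g) = ∅ := by
      rw [Finset.filter_eq_empty_iff]
      intro i hi hig
      exact hg (Finset.mem_image.2 ⟨i, hi, hig⟩)
    rw [h1, Finset.sum_empty]

theorem alg_nat (n : ℕ) : IsAlgebraic ℚ (n : ℂ) := isAlgebraic_natCast n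

/-- the numbers `e^a = A + B t^k` and `e^b = A' + B' t^l` -/
theorem two_relations (a b t A B A' B' : ℂ) (k l : ℕ) (ha : IsAlgebraic ℚ a)
    (hb : IsAlgebraic ℚ b) (ha0 : a ≠ 0) (hb0 : b ≠ 0) (hk : 1 ≤ k) (hl : 1 ≤ l)
    (hA : IsAlgebraic ℚ A) (hB : IsAlgebraic ℚ B) (hA' : IsAlgebraic ℚ A')
    (hB' : IsAlgebraic ℚ B') (h1 : Complex.exp a = A + B * t ^ k)
    (h2 : Complex.exp b = A' + B' * t ^ l) :
    (l : ℂ) * a = k * b ∧ ((A = 0 ∧ A' = 0) ∨ (a = b ∧ k = l)) := by
  have hB0 : B ≠ 0 := by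
    rintro rfl
    apply transcendental_cexp a ha ha0
    rw [h1]
    simpa using hA
  have hB'0 : B' ≠ 0 := by
    rintro rfl
    apply transcendental_cexp b hb hb0
    rw [h2]
    simpa using hA'
  -- the coefficients
  obtain ⟨p, hp⟩ : ∃ p : ℕ → ℂ, p = fun i => B' ^ k * ((l.choose i : ℂ) * (-A) ^ (l - i)) := ⟨_, rfl⟩
  obtain ⟨q, hq⟩ : ∃ q : ℕ → ℂ, q = fun j => B ^ l * ((k.choose j : ℂ) * (-A') ^ (k - j)) := ⟨_, rfl⟩
  have hsum : ∑ i ∈ range (l + 1), p i * Complex.exp (i * a) -
      ∑ j ∈ range (k + 1), q j * Complex.exp (j * b) = 0 := by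
    have e1 : ∑ i ∈ range (l + 1), p i * Complex.exp (i * a) =
        B' ^ k * (Complex.exp a - A) ^ l := by
      rw [sub_eq_add_neg, add_pow, Finset.mul_sum]
      refine Finset.sum_congr rfl fun i _ => ?_
      rw [hp, Complex.exp_nat_mul]
      ring
    have e2 : ∑ j ∈ range (k + 1), q j * Complex.exp (j * b) =
        B ^ l * (Complex.exp b - A') ^ k := by
      rw [sub_eq_add_neg, add_pow, Finset.mul_sum]
      refine Finset.sum_congr rfl fun i _ => ?_
      rw [hq, Complex.exp_nat_mul]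
      ring
    rw [e1, e2, h1, h2]
    ring
  -- coefficients at each exponent
  have key : ∀ g : ℂ, (∑ i ∈ (range (l + 1)).filter (fun i : ℕ => (i : ℂ) * a = g), p i) =
      ∑ j ∈ (range (k + 1)).filter (fun j : ℕ => (j : ℂ) * b = g), q j := by
    intro g
    have h3 := lw_group ((range (l + 1)).disjSum (range (k + 1)))
      (Sum.elim (fun i => (i : ℂ) * a) (fun j => (j : ℂ) * b))
      (Sum.elim p (fun j => - q j)) (by
        rintro (i | j) _
        · exact (alg_nat i).mul ha
        · exact (alg_nat j).mul hb) (by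
        rintro (i | j) _
        · simp only [Sum.elim_inl, hp]
          exact (hB'.pow k).mul ((alg_nat _).mul (hA.neg.pow _))
        · simp only [Sum.elim_inr, hq]
          exact ((hB.pow l).mul ((alg_nat _).mul (hA'.neg.pow _))).neg) (by
        rw [Finset.sum_disjSum]
        simp only [Sum.elim_inl, Sum.elim_inr, neg_mul, Finset.sum_neg_distrib]
        rw [← sub_eq_add_neg]
        exact hsum) g
    rw [Finset.sum_filter, Finset.sum_disjSum] at h3
    simp only [Sum.elim_inl, Sum.elim_inr] at h3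
    rw [← Finset.sum_filter, ← Finset.sum_filter, Finset.sum_neg_distrib] at h3
    exact sub_eq_zero.1 (by rw [sub_eq_add_neg]; exact h3)
  have hinja : ∀ i j : ℕ, (i : ℂ) * a = j * a → i = j := fun i j h => by
    exact_mod_cast mul_right_cancel₀ ha0 h
  have hinjb : ∀ i j : ℕ, (i : ℂ) * b = j * b → i = j := fun i j h => by
    exact_mod_cast mul_right_cancel₀ hb0 h
  have keyl : ∀ i ≤ l, p i = ∑ j ∈ (range (k + 1)).filter (fun j : ℕ => (j : ℂ) * b = i * a), q j := by
    intro i hi
    rw [← key]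
    rw [Finset.sum_eq_single_of_mem i (by simp; omega)]
    intro j hj hji
    exact absurd (hinja _ _ (Finset.mem_filter.1 hj).2) hji
  have keyr : ∀ j ≤ k, q j = ∑ i ∈ (range (l + 1)).filter (fun i : ℕ => (i : ℂ) * a = j * b), p i := by
    intro i hi
    rw [key]
    rw [Finset.sum_eq_single_of_mem i (by simp; omega)]
    intro j hj hji
    exact absurd (hinjb _ _ (Finset.mem_filter.1 hj).2) hji
  have exl : ∀ i ≤ l, p i ≠ 0 → ∃ j ≤ k, q j ≠ 0 ∧ (j : ℂ) * b = i * a := by
    intro i hi h0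
    rw [keyl i hi] at h0
    obtain ⟨j, hj, hj0⟩ := Finset.exists_ne_zero_of_sum_ne_zero h0
    rw [Finset.mem_filter, Finset.mem_range] at hj
    exact ⟨j, by omega, hj0, hj.2⟩
  have exr : ∀ j ≤ k, q j ≠ 0 → ∃ i ≤ l, p i ≠ 0 ∧ (i : ℂ) * a = j * b := by
    intro i hi h0
    rw [keyr i hi] at h0
    obtain ⟨j, hj, hj0⟩ := Finset.exists_ne_zero_of_sum_ne_zero h0
    rw [Finset.mem_filter, Finset.mem_range] at hj
    exact ⟨j, by omega, hj0, hj.2⟩
  have hpl : p l ≠ 0 := by
    rw [hp]
    simp [hB'0]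
  have hqk : q k ≠ 0 := by
    rw [hq]
    simp [hB0]
  obtain ⟨j, hj, -, hjb⟩ := exl l le_rfl hpl
  obtain ⟨i, hi, -, hia⟩ := exr k le_rfl hqk
  have hij : i * j = k * l := by
    have e1 : ((i * j : ℕ) : ℂ) * a = ((k * l : ℕ) : ℂ) * a := by
      push_cast
      calc (i : ℂ) * j * a = j * (i * a) := by ring
        _ = j * (k * b) := by rw [hia]
        _ = k * (j * b) := by ring
        _ = k * (l * a) := by rw [hjb]
        _ = _ := by ring
    exact hinja _ _ e1
  have hjk : j = k := by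
    by_contra hne
    have h3 : j < k := lt_of_le_of_ne hj hne
    have h4 : i * j ≤ l * j := Nat.mul_le_mul_right j hi
    have h5 : l * j < l * k := Nat.mul_lt_mul_of_pos_left h3 hl
    nlinarith
  subst hjk
  refine ⟨hjb.symm, ?_⟩
  by_cases hA0 : A = 0
  · left
    refine ⟨hA0, ?_⟩
    by_contra hA'0
    have hq0 : q 0 ≠ 0 := by
      rw [hq]
      simp [hB0, hA'0]
    obtain ⟨i', hi', hp', hi'a⟩ := exr 0 (by omega) hq0
    have : i' = 0 := hinja i' 0 (by rw [hi'a]; simp)
    subst this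
    apply hp'
    rw [hp, hA0]
    simp [show l ≠ 0 by omega]
  · right
    have hp0 : ∀ i ≤ l, p i ≠ 0 := by
      intro i hi
      rw [hp]
      simp only [ne_eq, mul_eq_zero, pow_eq_zero_iff', not_or, not_and_or]
      refine ⟨Or.inl hB'0, ?_, Or.inl (by simpa using hA0)⟩
      exact_mod_cast (Nat.choose_pos hi).ne'
    have hA'0 : A' ≠ 0 := by
      rintro rfl
      obtain ⟨j', hj', hq', hj'b⟩ := exl 0 (by omega) (hp0 0 (by omega))
      have : j' = 0 := hinjb j' 0 (by rw [hj'b]; simp)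
      subst this
      apply hq'
      rw [hq]
      simp [show j ≠ 0 by omega]
    have hq0 : ∀ i ≤ j, q i ≠ 0 := by
      intro i hi
      rw [hq]
      simp only [ne_eq, mul_eq_zero, pow_eq_zero_iff', not_or, not_and_or]
      refine ⟨Or.inl hB0, ?_, Or.inl (by simpa using hA'0)⟩
      exact_mod_cast (Nat.choose_pos hi).ne'
    obtain ⟨u, hu, -, hub⟩ := exl 1 hl (hp0 1 hl)
    obtain ⟨v, hv, -, hva⟩ := exr 1 hk (hq0 1 hk)
    have huv : v * u = 1 := by
      apply hinja
      push_cast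
      push_cast at hub hva
      calc (v : ℂ) * u * a = u * (v * a) := by ring
        _ = u * (1 * b) := by rw [hva]
        _ = u * b := by ring
        _ = 1 * a := hub
    have hu1 : u = 1 := Nat.eq_one_of_mul_eq_one_left huv
    subst hu1
    push_cast at hub
    have hab : a = b := by simpa using hub.symm
    refine ⟨hab, ?_⟩
    subst hab
    exact hinja _ _ hjb

end Pool.Agent.H118.EP
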