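import Mathlib
import Pool.Agent.H118.EP.Alg

set_option autoImplicit false

/-!
# Two binomial relations, exponents of different signs
-/

namespace Pool.Agent.H118.EP

open Finset Pool.Agent.H340R2.LW Polynomial

/-- the field of algebraic numbers -/
abbrev K : Type := algebraicClosure ℚ ℂ

theorem mem_K {z : ℂ} (h : IsAlgebraic ℚ z) : z ∈ algebraicClosure ℚ ℂ :=
  mem_algebraicClosure_iff.2 h

theorem alg_K (x : K) : IsAlgebraic ℚ (x : ℂ) := mem_algebraicClosure_iff.1 x.2

theorem transc_K {z : ℂ} (h : Transcendental ℚ z) : Transcendental K z :=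
  h.algebraicClosure

instance : IsAlgClosed K := (algebraicClosure.isAlgClosure ℚ ℂ).isAlgClosed

theorem poly_eq {z : ℂ} (h : Transcendental ℚ z) {P Q : K[X]} (he : aeval z P = aeval z Q) :
    P = Q := by
  have h2 : aeval z (P - Q) = 0 := by rw [map_sub, he, sub_self]
  exact sub_eq_zero.1 ((transcendental_iff.1 (transc_K h)) _ h2)

/-- commensurable exponents -/
theorem mixed_comm (g A A' c : ℂ) (n m : ℤ) (k l : ℕ) (hg : IsAlgebraic ℚ g) (hg0 : g ≠ 0)
    (hn : 0 < n) (hm : m ≠ 0) (hk : 1 ≤ k) (hl : 1 ≤ l) (hA : IsAlgebraic ℚ A)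
    (hA' : IsAlgebraic ℚ A') (hc : IsAlgebraic ℚ c) (hc0 : c ≠ 0)
    (h : (Complex.exp g ^ n - A) ^ l * (Complex.exp g ^ m - A') ^ k = c) :
    A = 0 ∧ A' = 0 ∧ (l : ℤ) * n + k * m = 0 := by
  obtain ⟨z, hz⟩ : ∃ z, z = Complex.exp g := ⟨_, rfl⟩
  have hzt : Transcendental ℚ z := by rw [hz]; exact transcendental_cexp g hg hg0
  have hz0 : z ≠ 0 := by rw [hz]; exact Complex.exp_ne_zero _
  rw [← hz] at h
  obtain ⟨n', rfl⟩ := Int.eq_ofNat_of_zero_le hn.le
  have hn' : 1 ≤ n' := by exact_mod_cast hn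
  obtain ⟨a, ha⟩ : ∃ a : K, a = ⟨A, mem_K hA⟩ := ⟨_, rfl⟩
  obtain ⟨a', ha'⟩ : ∃ a' : K, a' = ⟨A', mem_K hA'⟩ := ⟨_, rfl⟩
  obtain ⟨d, hd⟩ : ∃ d : K, d = ⟨c, mem_K hc⟩ := ⟨_, rfl⟩
  have haA : (algebraMap K ℂ) a = A := by rw [ha]; rfl
  have haA' : (algebraMap K ℂ) a' = A' := by rw [ha']; rfl
  have hdc : (algebraMap K ℂ) d = c := by rw [hd]; rfl
  have hd0 : d ≠ 0 := by
    rintro rfl
    exact hc0 (by rw [← hdc]; simp)
  rw [zpow_natCast] at h
  rcases lt_or_gt_of_ne hm with hneg | hpos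
  · -- opposite signs
    obtain ⟨m', hm'⟩ := Int.eq_ofNat_of_zero_le (show 0 ≤ -m by omega)
    have hm1 : 1 ≤ m' := by omega
    obtain rfl : m = -(m' : ℤ) := by omega
    rw [zpow_neg, zpow_natCast] at h
    have h1 : (z ^ n' - A) ^ l * (1 - A' * z ^ m') ^ k = c * z ^ (m' * k) := by
      rw [← h, pow_mul, mul_assoc, ← mul_pow]
      congr 2
      field_simp
    have h2 : (X ^ n' - C a : K[X]) ^ l * (1 - C a' * X ^ m') ^ k = C d * X ^ (m' * k) := by
      apply poly_eq hzt
      simp only [map_mul, map_pow, map_sub, map_one, aeval_X, aeval_C, haA, haA', hdc]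
      exact h1
    have hev : ∀ x : K, (x ^ n' - a) ^ l * (1 - a' * x ^ m') ^ k = d * x ^ (m' * k) := by
      intro x
      have := congrArg (eval x) h2
      simpa using this
    have ha0 : a = 0 := by
      by_contra hne
      obtain ⟨x, hx⟩ := IsAlgClosed.exists_pow_nat_eq a (show 0 < n' by omega)
      have hx0 : x ≠ 0 := by
        rintro rfl
        rw [zero_pow (by omega)] at hx
        exact hne hx.symm
      have := hev x
      rw [hx, sub_self, zero_pow (by omega), zero_mul] at this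
      exact (mul_ne_zero hd0 (pow_ne_zero _ hx0)) this.symm
    have ha'0 : a' = 0 := by
      by_contra hne
      obtain ⟨x, hx⟩ := IsAlgClosed.exists_pow_nat_eq a'⁻¹ (show 0 < m' by omega)
      have hx0 : x ≠ 0 := by
        rintro rfl
        rw [zero_pow (by omega)] at hx
        exact (inv_ne_zero hne) hx.symm
      have := hev x
      rw [hx, mul_inv_cancel₀ hne, sub_self, zero_pow (show k ≠ 0 by omega), mul_zero] at this
      exact (mul_ne_zero hd0 (pow_ne_zero _ hx0)) this.symm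
    have hdeg : n' * l = m' * k := by
      rw [ha0, ha'0] at h2
      have h3 := congrArg natDegree h2
      simp only [map_zero, sub_zero, zero_mul, one_pow, mul_one] at h3
      rw [← pow_mul, natDegree_X_pow, natDegree_C_mul_X_pow _ _ hd0] at h3
      exact h3
    refine ⟨?_, ?_, ?_⟩
    · rw [← haA, ha0, map_zero]
    · rw [← haA', ha'0, map_zero]
    · have : ((n' * l : ℕ) : ℤ) = ((m' * k : ℕ) : ℤ) := by rw [hdeg]
      push_cast at this
      push_cast
      linarith
  · exfalso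
    obtain ⟨m', rfl⟩ := Int.eq_ofNat_of_zero_le hpos.le
    have hm1 : 1 ≤ m' := by omega
    rw [zpow_natCast] at h
    have h2 : (X ^ n' - C a : K[X]) ^ l * (X ^ m' - C a') ^ k = C d := by
      apply poly_eq hzt
      simp only [map_mul, map_pow, map_sub, aeval_X, aeval_C, haA, haA', hdc]
      exact h
    have h3 := congrArg natDegree h2
    have m1 : (X ^ n' - C a : K[X]).Monic := monic_X_pow_sub_C a (by omega)
    have m2 : (X ^ m' - C a' : K[X]).Monic := monic_X_pow_sub_C a' (by omega)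
    rw [(m1.pow l).natDegree_mul (m2.pow k), m1.natDegree_pow, m2.natDegree_pow,
      natDegree_X_pow_sub_C, natDegree_X_pow_sub_C, natDegree_C] at h3
    have : 1 ≤ l * n' := Nat.mul_pos hl hn'
    omega

/-- `e^a = A + B t^k` and `e^b = A' + B' t^(-l)` -/
theorem two_relations_mixed (a b t A B A' B' : ℂ) (k l : ℕ) (ht : t ≠ 0) (ha : IsAlgebraic ℚ a)
    (hb : IsAlgebraic ℚ b) (ha0 : a ≠ 0) (hb0 : b ≠ 0) (hk : 1 ≤ k) (hl : 1 ≤ l)
    (hA : IsAlgebraic ℚ A) (hB : IsAlgebraic ℚ B) (hA' : IsAlgebraic ℚ A')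
    (hB' : IsAlgebraic ℚ B') (h1 : Complex.exp a = A + B * t ^ k)
    (h2 : Complex.exp b = A' + B' * (t ^ l)⁻¹) :
    (l : ℂ) * a + k * b = 0 ∧ A = 0 ∧ A' = 0 := by
  have hB0 : B ≠ 0 := by
    rintro rfl
    apply transcendental_cexp a ha ha0
    rw [h1]
    simpa using hA
  have hB'0 : B' ≠ 0 := by
    rintro rfl
    apply transcendental_cexp b hb hb0
    rw [h2]
    simpa using hA'
  obtain ⟨c, hc⟩ : ∃ c, c = B ^ l * B' ^ k := ⟨_, rfl⟩
  have hcalg : IsAlgebraic ℚ c := by rw [hc]; exact (hB.pow l).mul (hB'.pow k)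
  have hc0 : c ≠ 0 := by rw [hc]; exact mul_ne_zero (pow_ne_zero _ hB0) (pow_ne_zero _ hB'0)
  have hF : (Complex.exp a - A) ^ l * (Complex.exp b - A') ^ k = c := by
    rw [h1, h2, hc, add_sub_cancel_left, add_sub_cancel_left, mul_pow, mul_pow, ← pow_mul, inv_pow,
      ← pow_mul, mul_comm l k]
    have : t ^ (k * l) ≠ 0 := pow_ne_zero _ ht
    field_simp
  by_cases hcomm : ∃ n m : ℤ, n ≠ 0 ∧ m ≠ 0 ∧ (m : ℂ) * a = n * b
  · obtain ⟨n, m, hn, hm, hmn⟩ := hcomm
    have main : ∀ n m : ℤ, 0 < n → m ≠ 0 → (m : ℂ) * a = n * b →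
        (l : ℂ) * a + k * b = 0 ∧ A = 0 ∧ A' = 0 := by
      intro n m hn hm hmn
      have hnC : (n : ℂ) ≠ 0 := by exact_mod_cast hn.ne'
      obtain ⟨g, hg⟩ : ∃ g, g = a / n := ⟨_, rfl⟩
      have hga : a = n * g := by rw [hg]; field_simp
      have hgb : b = m * g := by
        rw [hg, ← mul_div_assoc, hmn]
        field_simp
      have hgalg : IsAlgebraic ℚ g := by
        rw [hg, div_eq_mul_inv]
        exact ha.mul (isAlgebraic_intCast n).inv
      have hg0 : g ≠ 0 := by
        rintro rfl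
        exact ha0 (by rw [hga]; simp)
      rw [hga, hgb, Complex.exp_int_mul, Complex.exp_int_mul] at hF
      obtain ⟨e1, e2, e3⟩ := mixed_comm g A A' c n m k l hgalg hg0 hn hm hk hl hA hA' hcalg hc0 hF
      refine ⟨?_, e1, e2⟩
      have : ((l : ℂ) * n + k * m) = 0 := by exact_mod_cast e3
      rw [hga, hgb]
      linear_combination g * this
    rcases lt_or_gt_of_ne hn with h | h
    · exact main (-n) (-m) (by omega) (by omega) (by push_cast; linear_combination -hmn)
    · exact main n m h hm hmn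
  · exfalso
    push Not at hcomm
    -- all exponents are different
    have hinj : ∀ i j i' j' : ℕ, (i : ℂ) * a + j * b = i' * a + j' * b → i = i' ∧ j = j' := by
      intro i j i' j' h
      have h3 : (((i : ℤ) - i' : ℤ) : ℂ) * a = (((j' : ℤ) - j : ℤ) : ℂ) * b := by
        push_cast
        linear_combination h
      by_cases hj : (j' : ℤ) - j = 0
      · rw [hj, Int.cast_zero, zero_mul] at h3
        have h4 := (mul_eq_zero.1 h3).resolve_right ha0
        have h5 : (i : ℤ) - i' = 0 := by exact_mod_cast h4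
        omega
      · by_cases hi : (i : ℤ) - i' = 0
        · rw [hi, Int.cast_zero, zero_mul] at h3
          have h4 := (mul_eq_zero.1 h3.symm).resolve_right hb0
          have h5 : (j' : ℤ) - j = 0 := by exact_mod_cast h4
          omega
        · exact absurd h3 (hcomm _ _ hj hi)
    obtain ⟨p, hp⟩ : ∃ p : ℕ → ℂ, p = fun i => (l.choose i : ℂ) * (-A) ^ (l - i) := ⟨_, rfl⟩
    obtain ⟨q, hq⟩ : ∃ q : ℕ → ℂ, q = fun j => (k.choose j : ℂ) * (-A') ^ (k - j) := ⟨_, rfl⟩
    have e1 : (Complex.exp a - A) ^ l = ∑ i ∈ range (l + 1), p i * Complex.exp (i * a) := by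
      rw [sub_eq_add_neg, add_pow]
      refine Finset.sum_congr rfl fun i _ => ?_
      rw [hp, Complex.exp_nat_mul]
      ring
    have e2 : (Complex.exp b - A') ^ k = ∑ i ∈ range (k + 1), q i * Complex.exp (i * b) := by
      rw [sub_eq_add_neg, add_pow]
      refine Finset.sum_congr rfl fun i _ => ?_
      rw [hq, Complex.exp_nat_mul]
      ring
    rw [e1, e2, Finset.sum_mul_sum, ← Finset.sum_product'] at hF
    have h3 := lw_group ((range (l + 1) ×ˢ range (k + 1)).disjSum ({()} : Finset Unit))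
      (Sum.elim (fun x : ℕ × ℕ => (x.1 : ℂ) * a + x.2 * b) (fun _ => 0))
      (Sum.elim (fun x : ℕ × ℕ => p x.1 * q x.2) (fun _ => - c)) (by
        rintro (i | j) _
        · exact ((alg_nat _).mul ha).add ((alg_nat _).mul hb)
        · exact isAlgebraic_zero) (by
        rintro (i | j) _
        · simp only [Sum.elim_inl, hp, hq]
          exact ((alg_nat _).mul (hA.neg.pow _)).mul ((alg_nat _).mul (hA'.neg.pow _))
        · exact hcalg.neg) (by
        rw [Finset.sum_disjSum]
        simp only [Sum.elim_inl, Sum.elim_inr, Finset.sum_singleton, Complex.exp_zero, mul_one]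
        rw [← sub_eq_add_neg, sub_eq_zero, ← hF]
        refine Finset.sum_congr rfl fun x _ => ?_
        rw [Complex.exp_add]
        ring) (l * a + k * b)
    rw [Finset.sum_filter, Finset.sum_disjSum] at h3
    simp only [Sum.elim_inl, Sum.elim_inr, Finset.sum_singleton] at h3
    have hne : (0 : ℂ) ≠ l * a + k * b := by
      intro h0
      have := hinj 0 0 l k (by simpa using h0)
      omega
    rw [if_neg hne, add_zero, Finset.sum_eq_single_of_mem (l, k) (by simp)] at h3
    · rw [if_pos rfl, hp, hq] at h3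
      simp at h3
    · rintro ⟨i, j⟩ _ hne2
      rw [if_neg]
      intro h4
      obtain ⟨h5, h6⟩ := hinj _ _ _ _ h4
      exact hne2 (by simp only at h5 h6; rw [h5, h6])

end Pool.Agent.H118.EP
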