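import Mathlib
import Pool.Agent.H118.EP.Mix

set_option autoImplicit false

/-!
# The numbers `1, e^α, t^r`
-/

namespace Pool.Agent.H118.EP

open Finset Pool.Agent.H340R2.LW

theorem alg_of_natAbs {x : ℂ} {n : ℤ} (hn : n ≠ 0) (h : IsAlgebraic ℚ (x ^ n)) :
    IsAlgebraic ℚ x := by
  rcases lt_or_gt_of_ne hn with h1 | h1
  · obtain ⟨m, hm⟩ := Int.eq_ofNat_of_zero_le (show 0 ≤ -n by omega)
    obtain rfl : n = -(m : ℤ) := by omega
    rw [zpow_neg, zpow_natCast] at h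
    have h2 := h.inv
    rw [inv_inv] at h2
    exact h2.of_pow (by omega)
  · obtain ⟨m, rfl⟩ := Int.eq_ofNat_of_zero_le h1.le
    rw [zpow_natCast] at h
    exact h.of_pow (by omega)

theorem alg_zpow {x : ℂ} (n : ℤ) (h : IsAlgebraic ℚ x) : IsAlgebraic ℚ (x ^ n) := by
  cases n with
  | ofNat m => rw [Int.ofNat_eq_natCast, zpow_natCast]; exact h.pow m
  | negSucc m => rw [zpow_negSucc]; exact (h.pow _).inv

/-- `t ^ r` -/
noncomputable def pw (t : ℝ) (r : ℚ) : ℂ := ((t ^ (r : ℝ) : ℝ) : ℂ)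

theorem pw_ne {t : ℝ} (ht : 0 < t) (r : ℚ) : pw t r ≠ 0 := by
  unfold pw
  exact_mod_cast (Real.rpow_pos_of_pos ht _).ne'

theorem pw_pow_den {t : ℝ} (ht : 0 < t) (r : ℚ) : pw t r ^ r.den = (t : ℂ) ^ r.num := by
  unfold pw
  have h : (t ^ (r : ℝ)) ^ r.den = t ^ r.num := by
    rw [← Real.rpow_natCast, ← Real.rpow_mul ht.le, ← Real.rpow_intCast]
    congr 1
    have : ((r * r.den : ℚ) : ℝ) = ((r.num : ℚ) : ℝ) := by rw [Rat.mul_den_eq_num]
    push_cast at this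
    exact_mod_cast this
  exact_mod_cast congrArg (fun x : ℝ => (x : ℂ)) h

theorem pw_common {t : ℝ} (ht : 0 < t) (r : ℚ) (m : ℕ) (hm : 0 < m) (k : ℤ)
    (hk : (k : ℚ) = r * m) : pw t r = (((t ^ ((1 : ℝ) / m) : ℝ)) : ℂ) ^ k := by
  unfold pw
  have h : t ^ (r : ℝ) = (t ^ ((1 : ℝ) / m)) ^ k := by
    rw [← Real.rpow_intCast, ← Real.rpow_mul ht.le]
    congr 1
    have h2 : ((k : ℚ) : ℝ) = ((r * m : ℚ) : ℝ) := by rw [hk]
    push_cast at h2
    have h3 : (m : ℝ) ≠ 0 := by exact_mod_cast hm.ne'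
    rw [h2]
    field_simp
  exact_mod_cast congrArg (fun x : ℝ => (x : ℂ)) h

theorem pw_transc {t : ℝ} (ht0 : 0 < t) (ht : Transcendental ℚ t) {r : ℚ} (hr : r ≠ 0) :
    Transcendental ℚ (pw t r) := by
  intro h
  have h1 := h.pow r.den
  rw [pw_pow_den ht0] at h1
  have h2 := alg_of_natAbs (Rat.num_ne_zero.2 hr) h1
  apply ht
  exact (isAlgebraic_algebraMap_iff (algebraMap ℝ ℂ).injective).1 h2

/-- `1, e^α, t^r` are linearly dependent over the field of algebraic numbers -/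
def Dep (t : ℝ) (α : ℂ) (r : ℚ) : Prop :=
  ¬ LinearIndependent (algebraicClosure ℚ ℂ) ![(1 : ℂ), Complex.exp α, ((t ^ (r : ℝ) : ℝ) : ℂ)]

theorem dep_iff {t : ℝ} (ht0 : 0 < t) (ht : Transcendental ℚ t) {α : ℂ} (hα : IsAlgebraic ℚ α)
    (hα0 : α ≠ 0) {r : ℚ} (hr : r ≠ 0) :
    Dep t α r ↔ ∃ A B : ℂ, IsAlgebraic ℚ A ∧ IsAlgebraic ℚ B ∧
      Complex.exp α = A + B * pw t r := by
  have hpt := pw_transc ht0 ht hr
  unfold Dep
  rw [Fintype.not_linearIndependent_iff]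
  constructor
  · rintro ⟨g, hg, i, hi⟩
    rw [Fin.sum_univ_three] at hg
    simp only [Matrix.cons_val_zero, Matrix.cons_val_one, Matrix.cons_val] at hg
    change (g 0 : ℂ) * 1 + (g 1 : ℂ) * Complex.exp α + (g 2 : ℂ) * pw t r = 0 at hg
    have h0 : IsAlgebraic ℚ (g 0 : ℂ) := alg_K _
    have h1 : IsAlgebraic ℚ (g 1 : ℂ) := alg_K _
    have h2 : IsAlgebraic ℚ (g 2 : ℂ) := alg_K _
    have hg1 : (g 1 : ℂ) ≠ 0 := by
      intro h
      rw [h, zero_mul, add_zero, mul_one] at hg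
      by_cases hg2 : (g 2 : ℂ) = 0
      · rw [hg2, zero_mul, add_zero] at hg
        fin_cases i
        · exact hi (Subtype.ext hg)
        · exact hi (Subtype.ext h)
        · exact hi (Subtype.ext hg2)
      · apply hpt
        have e : pw t r = - (g 0 : ℂ) * (g 2 : ℂ)⁻¹ := by
          field_simp
          linear_combination hg
        rw [e]
        exact h0.neg.mul h2.inv
    refine ⟨-(g 0 : ℂ) * (g 1 : ℂ)⁻¹, -(g 2 : ℂ) * (g 1 : ℂ)⁻¹, h0.neg.mul h1.inv,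
      h2.neg.mul h1.inv, ?_⟩
    field_simp
    linear_combination hg
  · rintro ⟨A, B, hA, hB, h⟩
    refine ⟨![⟨A, mem_K hA⟩, -1, ⟨B, mem_K hB⟩], ?_, 1, by simp⟩
    rw [Fin.sum_univ_three]
    simp only [Matrix.cons_val_zero, Matrix.cons_val_one, Matrix.cons_val]
    change (A : ℂ) * 1 + (-1 : ℂ) * Complex.exp α + (B : ℂ) * pw t r = 0
    rw [h]
    ring

theorem core {t : ℝ} (ht0 : 0 < t) {α β : ℂ} (hα : IsAlgebraic ℚ α) (hβ : IsAlgebraic ℚ β)
    (hα0 : α ≠ 0) (hβ0 : β ≠ 0) {r s : ℚ} (hr : r ≠ 0) (hs : s ≠ 0) {A B A' B' : ℂ}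
    (hA : IsAlgebraic ℚ A) (hB : IsAlgebraic ℚ B) (hA' : IsAlgebraic ℚ A')
    (hB' : IsAlgebraic ℚ B') (h1 : Complex.exp α = A + B * pw t r)
    (h2 : Complex.exp β = A' + B' * pw t s) :
    (s : ℂ) * α = r * β ∧ ((A = 0 ∧ A' = 0) ∨ (α = β ∧ r = s)) := by
  obtain ⟨m, hm⟩ : ∃ m : ℕ, m = r.den * s.den := ⟨_, rfl⟩
  have hm0 : 0 < m := by rw [hm]; exact Nat.mul_pos r.den_pos s.den_pos
  obtain ⟨k, hk⟩ : ∃ k : ℤ, k = r.num * s.den := ⟨_, rfl⟩
  obtain ⟨l, hl⟩ : ∃ l : ℤ, l = s.num * r.den := ⟨_, rfl⟩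
  have hrQ : r * r.den = r.num := Rat.mul_den_eq_num r
  have hsQ : s * s.den = s.num := Rat.mul_den_eq_num s
  have hkQ : (k : ℚ) = r * m := by
    rw [hk, hm]; push_cast; rw [← hrQ]; ring
  have hlQ : (l : ℚ) = s * m := by
    rw [hl, hm]; push_cast; rw [← hsQ]; ring
  have hmQ : (m : ℚ) ≠ 0 := by exact_mod_cast hm0.ne'
  have hmC : (m : ℂ) ≠ 0 := by exact_mod_cast hm0.ne'
  have hk0 : k ≠ 0 := by
    intro h
    rw [h, Int.cast_zero] at hkQ
    exact (mul_ne_zero hr hmQ) hkQ.symm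
  have hl0 : l ≠ 0 := by
    intro h
    rw [h, Int.cast_zero] at hlQ
    exact (mul_ne_zero hs hmQ) hlQ.symm
  obtain ⟨u, hu⟩ : ∃ u : ℂ, u = (((t ^ ((1 : ℝ) / m) : ℝ)) : ℂ) := ⟨_, rfl⟩
  have hu0 : u ≠ 0 := by
    rw [hu]
    exact_mod_cast (Real.rpow_pos_of_pos ht0 _).ne'
  rw [pw_common ht0 r m hm0 k hkQ, ← hu] at h1
  rw [pw_common ht0 s m hm0 l hlQ, ← hu] at h2
  have main : (l : ℂ) * α = k * β ∧ ((A = 0 ∧ A' = 0) ∨ (α = β ∧ k = l)) := by
    rcases lt_or_gt_of_ne hk0 with hkn | hkp <;> rcases lt_or_gt_of_ne hl0 with hln | hlp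
    · obtain ⟨k', hk'⟩ := Int.eq_ofNat_of_zero_le (show 0 ≤ -k by omega)
      obtain ⟨l', hl'⟩ := Int.eq_ofNat_of_zero_le (show 0 ≤ -l by omega)
      obtain rfl : k = -(k' : ℤ) := by omega
      obtain rfl : l = -(l' : ℤ) := by omega
      rw [zpow_neg, zpow_natCast, ← inv_pow] at h1 h2
      obtain ⟨e1, e2⟩ := two_relations α β u⁻¹ A B A' B' k' l' hα hβ hα0 hβ0 (by omega) (by omega)
        hA hB hA' hB' h1 h2
      refine ⟨by push_cast; linear_combination -e1, ?_⟩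
      rcases e2 with e2 | ⟨e2, e3⟩
      · exact Or.inl e2
      · exact Or.inr ⟨e2, by rw [e3]⟩
    · obtain ⟨k', hk'⟩ := Int.eq_ofNat_of_zero_le (show 0 ≤ -k by omega)
      obtain ⟨l', rfl⟩ := Int.eq_ofNat_of_zero_le hlp.le
      obtain rfl : k = -(k' : ℤ) := by omega
      rw [zpow_neg, zpow_natCast] at h1
      rw [zpow_natCast] at h2
      obtain ⟨e1, e2, e3⟩ := two_relations_mixed β α u A' B' A B l' k' hu0 hβ hα hβ0 hα0 (by omega)
        (by omega) hA' hB' hA hB h2 h1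
      exact ⟨by push_cast; linear_combination e1, Or.inl ⟨e3, e2⟩⟩
    · obtain ⟨l', hl'⟩ := Int.eq_ofNat_of_zero_le (show 0 ≤ -l by omega)
      obtain ⟨k', rfl⟩ := Int.eq_ofNat_of_zero_le hkp.le
      obtain rfl : l = -(l' : ℤ) := by omega
      rw [zpow_neg, zpow_natCast] at h2
      rw [zpow_natCast] at h1
      obtain ⟨e1, e2, e3⟩ := two_relations_mixed α β u A B A' B' k' l' hu0 hα hβ hα0 hβ0 (by omega)
        (by omega) hA hB hA' hB' h1 h2
      exact ⟨by push_cast; linear_combination -e1, Or.inl ⟨e2, e3⟩⟩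
    · obtain ⟨k', rfl⟩ := Int.eq_ofNat_of_zero_le hkp.le
      obtain ⟨l', rfl⟩ := Int.eq_ofNat_of_zero_le hlp.le
      rw [zpow_natCast] at h1 h2
      obtain ⟨e1, e2⟩ := two_relations α β u A B A' B' k' l' hα hβ hα0 hβ0 (by omega) (by omega)
        hA hB hA' hB' h1 h2
      refine ⟨by push_cast; exact e1, ?_⟩
      rcases e2 with e2 | ⟨e2, e3⟩
      · exact Or.inl e2
      · exact Or.inr ⟨e2, by rw [e3]⟩
  obtain ⟨h3, h4⟩ := main
  have hkC : (k : ℂ) = r * m := by exact_mod_cast congrArg (fun x : ℚ => (x : ℂ)) hkQ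
  have hlC : (l : ℂ) = s * m := by exact_mod_cast congrArg (fun x : ℚ => (x : ℂ)) hlQ
  refine ⟨?_, ?_⟩
  · rw [hkC, hlC] at h3
    apply mul_right_cancel₀ hmC
    linear_combination h3
  · rcases h4 with h4 | ⟨h4, h5⟩
    · exact Or.inl h4
    · refine Or.inr ⟨h4, ?_⟩
      have : r * m = s * m := by rw [← hkQ, ← hlQ, h5]
      exact mul_right_cancel₀ hmQ this

/-- algebraic quotients `e^γ / t` and `e^(r γ) / t^r` -/
theorem quot_pow {t : ℝ} (ht0 : 0 < t) (γ : ℂ) (r : ℚ) :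
    (Complex.exp (r * γ) / pw t r) ^ r.den = (Complex.exp γ / t) ^ r.num := by
  rw [div_pow, pw_pow_den ht0, div_zpow, ← Complex.exp_nat_mul, ← Complex.exp_int_mul]
  congr 2
  have : (r : ℂ) * r.den = r.num := by
    exact_mod_cast congrArg (fun x : ℚ => (x : ℂ)) (Rat.mul_den_eq_num r)
  linear_combination γ * this

theorem main (t : ℝ) (ht0 : 0 < t) (ht : Transcendental ℚ t) :
    ((∀ γ : ℂ, IsAlgebraic ℚ γ → Transcendental ℚ (Complex.exp γ / t)) →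
      ∀ (α β : ℂ) (r s : ℚ), IsAlgebraic ℚ α → IsAlgebraic ℚ β → α ≠ 0 → β ≠ 0 → r ≠ 0 → s ≠ 0 →
        Dep t α r → Dep t β s → α = β ∧ r = s) ∧
    (∀ γ : ℂ, IsAlgebraic ℚ γ → IsAlgebraic ℚ (Complex.exp γ / t) →
      ∀ (α : ℂ) (r : ℚ), IsAlgebraic ℚ α → α ≠ 0 → r ≠ 0 → (Dep t α r ↔ α = r * γ)) := by
  constructor
  · intro H α β r s hα hβ hα0 hβ0 hr hs h1 h2
    obtain ⟨A, B, hA, hB, hAB⟩ := (dep_iff ht0 ht hα hα0 hr).1 h1
    obtain ⟨A', B', hA', hB', hAB'⟩ := (dep_iff ht0 ht hβ hβ0 hs).1 h2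
    obtain ⟨-, h3⟩ := core ht0 hα hβ hα0 hβ0 hr hs hA hB hA' hB' hAB hAB'
    rcases h3 with ⟨h3, -⟩ | h3
    · exfalso
      have hrC : (r : ℂ) ≠ 0 := by exact_mod_cast hr
      obtain ⟨γ, hγ⟩ : ∃ γ, γ = α / r := ⟨_, rfl⟩
      have hαγ : α = r * γ := by rw [hγ]; field_simp
      apply H γ (by
        rw [hγ, div_eq_mul_inv]
        have h5 : IsAlgebraic ℚ (r : ℂ) := by
          have h := isAlgebraic_algebraMap (R := ℚ) (A := ℂ) r
          rwa [eq_ratCast] at h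
        exact hα.mul h5.inv)
      apply alg_of_natAbs (Rat.num_ne_zero.2 hr)
      rw [← quot_pow ht0, ← hαγ, hAB, h3, zero_add, mul_div_assoc, div_self (pw_ne ht0 r), mul_one]
      exact hB.pow _
    · exact h3
  · intro γ hγ hγt α r hα hα0 hr
    have hγ0 : γ ≠ 0 := by
      rintro rfl
      rw [Complex.exp_zero, one_div] at hγt
      have h2 := hγt.inv
      rw [inv_inv] at h2
      exact ht ((isAlgebraic_algebraMap_iff (algebraMap ℝ ℂ).injective).1 h2)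
    constructor
    · intro h
      obtain ⟨A, B, hA, hB, hAB⟩ := (dep_iff ht0 ht hα hα0 hr).1 h
      have ht1 : (t : ℂ) ≠ 0 := by exact_mod_cast ht0.ne'
      obtain ⟨h3, -⟩ := core ht0 hα hγ hα0 hγ0 hr (one_ne_zero) hA hB isAlgebraic_zero hγt hAB
        (show Complex.exp γ = 0 + Complex.exp γ / t * pw t 1 by
          unfold pw
          rw [Rat.cast_one, Real.rpow_one]
          field_simp
          ring)
      rw [Rat.cast_one, one_mul] at h3
      exact h3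
    · intro h
      subst h
      rw [dep_iff ht0 ht hα hα0 hr]
      refine ⟨0, Complex.exp (r * γ) / pw t r, isAlgebraic_zero, ?_, ?_⟩
      · refine IsAlgebraic.of_pow r.den_pos ?_
        rw [quot_pow ht0]
        exact alg_zpow _ hγt
      · have := pw_ne ht0 r
        field_simp
        ring

end Pool.Agent.H118.EP
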