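import Mathlib
import Pool.Agent.W472.AC.EMeas2

set_option autoImplicit false

/-!
# Quantitative comparison of two relations
-/

namespace Pool.Agent.H118.EP

open Finset Polynomial

theorem exists_pos_le {ι : Type*} (F : Finset ι) (f : ι → ℝ) (h : ∀ i ∈ F, 0 < f i) :
    ∃ c : ℝ, 0 < c ∧ ∀ i ∈ F, c ≤ f i := by
  classical
  induction F using Finset.induction_on with
  | empty => exact ⟨1, one_pos, by simp⟩
  | insert a s ha ih =>
    obtain ⟨c, hc, hcs⟩ := ih (fun i hi => h i (Finset.mem_insert_of_mem hi))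
    refine ⟨min c (f a), lt_min hc (h a (Finset.mem_insert_self _ _)), fun i hi => ?_⟩
    rcases Finset.mem_insert.1 hi with rfl | hi
    · exact min_le_right _ _
    · exact (min_le_left _ _).trans (hcs i hi)

/-- the measure of `e` for polynomials with given support -/
theorem meas_sparse (S : Finset ℕ) (h0 : 0 ∈ S) (m : ℕ) (hm : S.card ≤ m + 1) (η : ℝ) (hη : 0 < η) :
    ∃ c : ℝ, 0 < c ∧ ∀ P : ℤ[X], P ≠ 0 → P.support ⊆ S → ∀ H : ℝ, 1 ≤ H →
      (∀ i, |(P.coeff i : ℝ)| ≤ H) → c ≤ H ^ ((m : ℝ) + η) * |aeval (Real.exp 1) P| := by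
  obtain ⟨n, hn⟩ : ∃ n, S.card = n + 1 := by
    have : 0 < S.card := Finset.card_pos.2 ⟨0, h0⟩
    exact ⟨S.card - 1, by omega⟩
  obtain ⟨c, hc, h⟩ := Pool.Agent.W472.AC.e_meas n (fun i => ((S.orderEmbOfFin hn i : ℕ) : ℤ))
    (fun i j hij => by
      have : S.orderEmbOfFin hn i = S.orderEmbOfFin hn j := Int.ofNat.inj hij
      exact (S.orderEmbOfFin hn).injective this) (by
      have h1 : S.orderEmbOfFin hn ⟨0, Nat.succ_pos n⟩ = S.min' ⟨0, h0⟩ :=
        Finset.orderEmbOfFin_zero hn (Nat.succ_pos n)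
      have h2 : S.min' ⟨0, h0⟩ = 0 := Nat.le_zero.1 (Finset.min'_le _ _ h0)
      have h3 : (0 : Fin (n + 1)) = ⟨0, Nat.succ_pos n⟩ := rfl
      show ((S.orderEmbOfFin hn 0 : ℕ) : ℤ) = 0
      rw [h3, h1, h2]
      rfl) (fun i => by positivity) η hη
  refine ⟨c, hc, fun P hP hPS H hH hPH => ?_⟩
  have hsum : ∀ f : ℕ → ℝ, ∑ i : Fin (n + 1), f (S.orderEmbOfFin hn i) = ∑ x ∈ S, f x := by
    intro f
    conv_rhs => rw [← Finset.image_orderEmbOfFin_univ S hn]
    rw [Finset.sum_image]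
    intro i _ j _ hij
    exact (S.orderEmbOfFin hn).injective hij
  have h1 := h (fun i => P.coeff (S.orderEmbOfFin hn i)) (by
    intro h2
    apply hP
    ext x
    rw [coeff_zero]
    by_cases hx : x ∈ S
    · rw [← Finset.image_orderEmbOfFin_univ S hn] at hx
      obtain ⟨i, -, rfl⟩ := Finset.mem_image.1 hx
      exact congrFun h2 i
    · by_contra hne
      exact hx (hPS (mem_support_iff.2 hne))) H hH (fun i => hPH _)
  have h2 : ∑ i : Fin (n + 1), ((P.coeff (S.orderEmbOfFin hn i) : ℤ) : ℝ) *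
      Real.exp (((S.orderEmbOfFin hn i : ℕ) : ℤ) : ℝ) = aeval (Real.exp 1) P := by
    have h3 := hsum (fun x => ((P.coeff x : ℤ) : ℝ) * Real.exp (x : ℝ))
    push_cast
    rw [h3, aeval_def, eval₂_eq_sum, Polynomial.sum_def]
    symm
    refine (Finset.sum_subset hPS fun x _ hx => ?_).trans (Finset.sum_congr rfl fun x _ => ?_)
    · rw [notMem_support_iff.1 hx]
      simp
    · rw [← Real.exp_nat_mul, mul_one, eq_intCast]
  rw [h2] at h1
  refine h1.trans (mul_le_mul_of_nonneg_right ?_ (abs_nonneg _))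
  refine Real.rpow_le_rpow_of_exponent_le hH ?_
  have : n ≤ m := by omega
  have : (n : ℝ) ≤ m := by exact_mod_cast this
  linarith

/-- the coefficients of `(a + b x^j)^l` -/
theorem coeff_binom (a b : ℤ) (j l n : ℕ) : ((C a + C b * X ^ j : ℤ[X]) ^ l).coeff n =
    ∑ i ∈ range (l + 1), if i * j = n then b ^ i * a ^ (l - i) * (l.choose i : ℤ) else 0 := by
  rw [add_comm, add_pow, finset_sum_coeff]
  refine Finset.sum_congr rfl fun i _ => ?_
  have e : (C b * X ^ j : ℤ[X]) ^ i * (C a) ^ (l - i) * (l.choose i : ℤ[X]) =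
      C (b ^ i * a ^ (l - i) * (l.choose i : ℤ)) * X ^ (j * i) := by
    rw [mul_pow, ← pow_mul]
    simp only [map_mul, map_pow, map_natCast]
    ring
  rw [e, coeff_C_mul_X_pow, mul_comm j i]
  by_cases h : n = i * j
  · rw [if_pos h, if_pos h.symm]
  · rw [if_neg h, if_neg (Ne.symm h)]

theorem coeff_binom_le (a b : ℤ) (j l n : ℕ) (Y : ℝ) (ha : |(a : ℝ)| ≤ Y) (hb : |(b : ℝ)| ≤ Y) :
    |((((C a + C b * X ^ j : ℤ[X]) ^ l).coeff n : ℤ) : ℝ)| ≤ (2 * Y) ^ l := by
  have hY : 0 ≤ Y := (abs_nonneg _).trans ha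
  rw [coeff_binom]
  push_cast
  calc |∑ i ∈ range (l + 1), if i * j = n then (b : ℝ) ^ i * (a : ℝ) ^ (l - i) * (l.choose i : ℝ) else 0|
      ≤ ∑ i ∈ range (l + 1), |if i * j = n then (b : ℝ) ^ i * (a : ℝ) ^ (l - i) * (l.choose i : ℝ) else 0| :=
        Finset.abs_sum_le_sum_abs _ _
    _ ≤ ∑ i ∈ range (l + 1), Y ^ l * (l.choose i : ℝ) := by
        refine Finset.sum_le_sum fun i hi => ?_
        have hi' : i ≤ l := by rw [Finset.mem_range] at hi; omega
        split_ifs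
        · rw [abs_mul, abs_mul, abs_pow, abs_pow, Nat.abs_cast]
          refine mul_le_mul_of_nonneg_right ?_ (Nat.cast_nonneg _)
          calc |(b : ℝ)| ^ i * |(a : ℝ)| ^ (l - i) ≤ Y ^ i * Y ^ (l - i) :=
                mul_le_mul (pow_le_pow_left₀ (abs_nonneg _) hb _)
                  (pow_le_pow_left₀ (abs_nonneg _) ha _) (by positivity) (by positivity)
            _ = Y ^ l := by rw [← pow_add]; congr 1; omega
        · rw [abs_zero]
          positivity
    _ = (2 * Y) ^ l := by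
        rw [← Finset.mul_sum]
        have : (∑ i ∈ range (l + 1), (l.choose i : ℝ)) = 2 ^ l := by
          exact_mod_cast Nat.sum_range_choose l
        rw [this, mul_pow, mul_comm]

/-- the exponents -/
def Sup (j k l m : ℕ) : Finset ℕ :=
  (range (m + 1)).image (fun i => i * j) ∪ (range (k + 1)).image (fun i => i * l)

theorem zero_mem_Sup (j k l m : ℕ) : 0 ∈ Sup j k l m := by
  unfold Sup
  rw [Finset.mem_union]
  left
  rw [Finset.mem_image]
  exact ⟨0, by simp, by simp⟩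

theorem card_Sup (j k l m : ℕ) : (Sup j k l m).card ≤ (k + m) + 1 := by
  unfold Sup
  have h := Finset.card_union_add_card_inter ((range (m + 1)).image (fun i => i * j))
    ((range (k + 1)).image (fun i => i * l))
  have h1 : 1 ≤ (((range (m + 1)).image (fun i => i * j)) ∩
      ((range (k + 1)).image (fun i => i * l))).card := by
    rw [Finset.one_le_card]
    refine ⟨0, ?_⟩
    rw [Finset.mem_inter, Finset.mem_image, Finset.mem_image]
    exact ⟨⟨0, by simp, by simp⟩, ⟨0, by simp, by simp⟩⟩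
  have h2 : ((range (m + 1)).image (fun i => i * j)).card ≤ m + 1 :=
    Finset.card_image_le.trans (by simp)
  have h3 : ((range (k + 1)).image (fun i => i * l)).card ≤ k + 1 :=
    Finset.card_image_le.trans (by simp)
  omega

/-- the auxiliary polynomial -/
noncomputable def EE (j k l m : ℕ) (a b d a' b' d' : ℤ) : ℤ[X] :=
  C ((-d') ^ k) * (C a + C b * X ^ j) ^ m - C ((-d) ^ m) * (C a' + C b' * X ^ l) ^ k

theorem EE_support (j k l m : ℕ) (a b d a' b' d' : ℤ) :
    (EE j k l m a b d a' b' d').support ⊆ Sup j k l m := by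
  intro n hn
  rw [mem_support_iff] at hn
  unfold Sup
  by_contra hcon
  apply hn
  rw [Finset.mem_union, not_or, Finset.mem_image, Finset.mem_image] at hcon
  obtain ⟨h1, h2⟩ := hcon
  push Not at h1 h2
  unfold EE
  rw [coeff_sub, coeff_C_mul, coeff_C_mul, coeff_binom, coeff_binom,
    Finset.sum_eq_zero, Finset.sum_eq_zero, mul_zero, mul_zero, sub_zero]
  · intro i hi
    rw [if_neg (h2 i hi)]
  · intro i hi
    rw [if_neg (h1 i hi)]

theorem EE_coeff (j k l m : ℕ) (hk : 1 ≤ k) (hm : 1 ≤ m) (a b d a' b' d' : ℤ) (Y : ℝ) (hY : 1 ≤ Y)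
    (ha : |(a : ℝ)| ≤ Y) (hb : |(b : ℝ)| ≤ Y) (hd : |(d : ℝ)| ≤ Y) (ha' : |(a' : ℝ)| ≤ Y)
    (hb' : |(b' : ℝ)| ≤ Y) (hd' : |(d' : ℝ)| ≤ Y) (n : ℕ) :
    |((EE j k l m a b d a' b' d').coeff n : ℝ)| ≤ (2 * Y) ^ (k + m) := by
  unfold EE
  rw [coeff_sub, coeff_C_mul, coeff_C_mul]
  push_cast
  have h1 := coeff_binom_le a b j m n Y ha hb
  have h2 := coeff_binom_le a' b' l k n Y ha' hb'
  have e1 : |(-(d' : ℝ)) ^ k * (((C a + C b * X ^ j : ℤ[X]) ^ m).coeff n : ℝ)| ≤ Y ^ k * (2 * Y) ^ m := by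
    rw [abs_mul, abs_pow, abs_neg]
    exact mul_le_mul (pow_le_pow_left₀ (abs_nonneg _) hd' _) h1 (abs_nonneg _) (by positivity)
  have e2 : |(-(d : ℝ)) ^ m * (((C a' + C b' * X ^ l : ℤ[X]) ^ k).coeff n : ℝ)| ≤ Y ^ m * (2 * Y) ^ k := by
    rw [abs_mul, abs_pow, abs_neg]
    exact mul_le_mul (pow_le_pow_left₀ (abs_nonneg _) hd _) h2 (abs_nonneg _) (by positivity)
  refine (abs_sub _ _).trans ((add_le_add e1 e2).trans ?_)
  have e3 : Y ^ k * (2 * Y) ^ m + Y ^ m * (2 * Y) ^ k = (2 ^ m + 2 ^ k) * Y ^ (k + m) := by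
    rw [mul_pow, mul_pow, pow_add]; ring
  rw [e3, mul_pow]
  refine mul_le_mul_of_nonneg_right ?_ (by positivity)
  have h3 : (2 : ℝ) ≤ 2 ^ k := by
    calc (2 : ℝ) = 2 ^ 1 := by norm_num
      _ ≤ 2 ^ k := pow_le_pow_right₀ (by norm_num) hk
  have h4 : (2 : ℝ) ≤ 2 ^ m := by
    calc (2 : ℝ) = 2 ^ 1 := by norm_num
      _ ≤ 2 ^ m := pow_le_pow_right₀ (by norm_num) hm
  rw [pow_add]
  nlinarith

theorem EE_ne (j k l m : ℕ) (hj : 1 ≤ j) (hk : 1 ≤ k) (hl : 1 ≤ l) (hm : 1 ≤ m)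
    (a b d a' b' d' : ℤ) (hb : b ≠ 0) (hb' : b' ≠ 0) (hd : d ≠ 0) (hd' : d' ≠ 0)
    (h : EE j k l m a b d a' b' d' = 0) :
    j * m = l * k ∧ ((a = 0 ∧ a' = 0) ∨ (j = l ∧ k = m)) := by
  have hc : ∀ n, (-d') ^ k * ∑ i ∈ range (m + 1),
      (if i * j = n then b ^ i * a ^ (m - i) * (m.choose i : ℤ) else 0) =
      (-d) ^ m * ∑ i ∈ range (k + 1),
      (if i * l = n then b' ^ i * a' ^ (k - i) * (k.choose i : ℤ) else 0) := by
    intro n
    have h1 := congrArg (fun P => coeff P n) h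
    simp only [EE, coeff_sub, coeff_C_mul, coeff_binom, coeff_zero] at h1
    linarith
  have hu : (-d') ^ k ≠ 0 := pow_ne_zero _ (neg_ne_zero.2 hd')
  have hv : (-d) ^ m ≠ 0 := pow_ne_zero _ (neg_ne_zero.2 hd)
  -- single terms
  have sl : ∀ i ≤ m, (∑ x ∈ range (m + 1),
      (if x * j = i * j then b ^ x * a ^ (m - x) * (m.choose x : ℤ) else 0)) =
      b ^ i * a ^ (m - i) * (m.choose i : ℤ) := by
    intro i hi
    rw [Finset.sum_eq_single_of_mem i (by simp; omega), if_pos rfl]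
    intro x _ hx
    rw [if_neg]
    intro h2
    exact hx (Nat.eq_of_mul_eq_mul_right (by omega) h2)
  have sr : ∀ i ≤ k, (∑ x ∈ range (k + 1),
      (if x * l = i * l then b' ^ x * a' ^ (k - x) * (k.choose x : ℤ) else 0)) =
      b' ^ i * a' ^ (k - i) * (k.choose i : ℤ) := by
    intro i hi
    rw [Finset.sum_eq_single_of_mem i (by simp; omega), if_pos rfl]
    intro x _ hx
    rw [if_neg]
    intro h2
    exact hx (Nat.eq_of_mul_eq_mul_right (by omega) h2)
  have exl : ∀ i ≤ m, b ^ i * a ^ (m - i) * (m.choose i : ℤ) ≠ 0 → ∃ x ≤ k, x * l = i * j ∧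
      b' ^ x * a' ^ (k - x) * (k.choose x : ℤ) ≠ 0 := by
    intro i hi h0
    have h1 := hc (i * j)
    rw [sl i hi] at h1
    have h2 : ∑ x ∈ range (k + 1),
      (if x * l = i * j then b' ^ x * a' ^ (k - x) * (k.choose x : ℤ) else 0) ≠ 0 := by
      intro h3
      rw [h3, mul_zero] at h1
      exact (mul_ne_zero hu h0) h1
    obtain ⟨x, hx, hx0⟩ := Finset.exists_ne_zero_of_sum_ne_zero h2
    rw [Finset.mem_range] at hx
    by_cases h3 : x * l = i * j
    · rw [if_pos h3] at hx0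
      exact ⟨x, by omega, h3, hx0⟩
    · rw [if_neg h3] at hx0
      exact absurd rfl hx0
  have exr : ∀ i ≤ k, b' ^ i * a' ^ (k - i) * (k.choose i : ℤ) ≠ 0 → ∃ x ≤ m, x * j = i * l ∧
      b ^ x * a ^ (m - x) * (m.choose x : ℤ) ≠ 0 := by
    intro i hi h0
    have h1 := hc (i * l)
    rw [sr i hi] at h1
    have h2 : ∑ x ∈ range (m + 1),
      (if x * j = i * l then b ^ x * a ^ (m - x) * (m.choose x : ℤ) else 0) ≠ 0 := by
      intro h3
      rw [h3, mul_zero] at h1
      exact (mul_ne_zero hv h0) h1.symm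
    obtain ⟨x, hx, hx0⟩ := Finset.exists_ne_zero_of_sum_ne_zero h2
    rw [Finset.mem_range] at hx
    by_cases h3 : x * j = i * l
    · rw [if_pos h3] at hx0
      exact ⟨x, by omega, h3, hx0⟩
    · rw [if_neg h3] at hx0
      exact absurd rfl hx0
  have top1 := exl m le_rfl (by simp [hb])
  have top2 := exr k le_rfl (by simp [hb'])
  obtain ⟨x, hx, hxj, -⟩ := top1
  obtain ⟨y, hy, hyl, -⟩ := top2
  have hdeg : j * m = l * k := by
    apply le_antisymm
    · calc j * m = x * l := by rw [hxj, mul_comm]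
        _ ≤ k * l := Nat.mul_le_mul_right _ hx
        _ = l * k := mul_comm _ _
    · calc l * k = y * j := by rw [hyl, mul_comm]
        _ ≤ m * j := Nat.mul_le_mul_right _ hy
        _ = j * m := mul_comm _ _
  refine ⟨hdeg, ?_⟩
  by_cases ha0 : a = 0
  · left
    refine ⟨ha0, ?_⟩
    by_contra ha'0
    obtain ⟨x, hx, hx2, hx3⟩ := exr 0 (by omega) (by simp [ha'0])
    have hx0 : x = 0 := by
      rcases Nat.eq_zero_or_pos x with h | h
      · exact h
      · have := Nat.mul_pos h (show 0 < j by omega)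
        omega
    subst hx0
    apply hx3
    rw [ha0]
    simp [show m ≠ 0 by omega]
  · right
    have ha'0 : a' ≠ 0 := by
      intro ha'0
      obtain ⟨x, hx, hx2, hx3⟩ := exl 0 (by omega) (by simp [ha0])
      have hx0 : x = 0 := by
        rcases Nat.eq_zero_or_pos x with h | h
        · exact h
        · have := Nat.mul_pos h (show 0 < l by omega)
          omega
      subst hx0
      apply hx3
      rw [ha'0]
      simp [show k ≠ 0 by omega]
    obtain ⟨x, hx, hx2, -⟩ := exl 1 hm (by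
      have : m ≠ 0 := by omega
      simp [ha0, hb, this])
    obtain ⟨y, hy, hy2, -⟩ := exr 1 hk (by
      have : k ≠ 0 := by omega
      simp [ha'0, hb', this])
    rw [one_mul] at hx2 hy2
    have hjl : j = l := by
      apply Nat.dvd_antisymm
      · exact ⟨y, by rw [← hy2, mul_comm]⟩
      · exact ⟨x, by rw [← hx2, mul_comm]⟩
    refine ⟨hjl, ?_⟩
    subst hjl
    exact (Nat.eq_of_mul_eq_mul_left (by omega) hdeg).symm

theorem EE_aeval (j k l m : ℕ) (a b d a' b' d' : ℤ) (z : ℝ) :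
    aeval z (EE j k l m a b d a' b' d') =
      (-(d' : ℝ)) ^ k * (a + b * z ^ j) ^ m - (-(d : ℝ)) ^ m * (a' + b' * z ^ l) ^ k := by
  unfold EE
  simp

theorem abs_pow_sub_le (A B M : ℝ) (hA : |A| ≤ M) (hB : |B| ≤ M) (n : ℕ) :
    |A ^ n - B ^ n| ≤ n * M ^ (n - 1) * |A - B| := by
  have hM : 0 ≤ M := (abs_nonneg _).trans hA
  have h := Commute.all A B
  rw [← (Commute.all A B).mul_geom_sum₂, abs_mul, mul_comm]
  refine mul_le_mul_of_nonneg_right ?_ (abs_nonneg _)
  calc |∑ i ∈ range n, A ^ i * B ^ (n - 1 - i)| ≤ ∑ i ∈ range n, |A ^ i * B ^ (n - 1 - i)| :=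
        Finset.abs_sum_le_sum_abs _ _
    _ ≤ ∑ _i ∈ range n, M ^ (n - 1) := by
        refine Finset.sum_le_sum fun i hi => ?_
        rw [Finset.mem_range] at hi
        rw [abs_mul, abs_pow, abs_pow]
        calc |A| ^ i * |B| ^ (n - 1 - i) ≤ M ^ i * M ^ (n - 1 - i) :=
              mul_le_mul (pow_le_pow_left₀ (abs_nonneg _) hA _)
                (pow_le_pow_left₀ (abs_nonneg _) hB _) (by positivity) (by positivity)
          _ = M ^ (n - 1) := by rw [← pow_add]; congr 1; omega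
    _ = n * M ^ (n - 1) := by rw [Finset.sum_const, Finset.card_range, nsmul_eq_mul]

end Pool.Agent.H118.EP
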