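import Mathlib
import Pool.Agent.H118.EP.Quant

set_option autoImplicit false

/-!
# Near relations at one scale
-/

namespace Pool.Agent.H118.EP

open Finset Polynomial

/-- two integer vectors are proportional -/
def Prp (a b d a' b' d' : ℤ) : Prop := a * b' = a' * b ∧ a * d' = a' * d ∧ b * d' = b' * d

theorem prp_of (a b d a' b' d' : ℤ) (hd : d ≠ 0) (hd' : d' ≠ 0) (h1 : a * d' = a' * d)
    (h2 : b * d' = b' * d) : Prp a b d a' b' d' := by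
  refine ⟨?_, h1, h2⟩
  have h3 : (a * b') * (d * d') = (a' * b) * (d * d') := by
    calc (a * b') * (d * d') = (a * d') * (b' * d) := by ring
      _ = (a' * d) * (b * d') := by rw [h1, h2]
      _ = _ := by ring
  exact mul_right_cancel₀ (mul_ne_zero hd hd') h3

theorem rpow_split (X w : ℝ) (hX : 1 ≤ X) (u v : ℝ) (h : u ≤ v) (hw : w = v) :
    X ^ u * X ^ (-w) ≤ 1 := by
  rw [← Real.rpow_add (by linarith)]
  refine Real.rpow_le_one_of_one_le_of_nonpos hX ?_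
  linarith

/-- `a + b e^j` is not very small -/
theorem two_terms (j : ℕ) (hj : 1 ≤ j) (η : ℝ) (hη : 0 < η) : ∃ c : ℝ, 0 < c ∧
    ∀ X : ℝ, 1 ≤ X → ∀ a b : ℤ, (a ≠ 0 ∨ b ≠ 0) → |(a : ℝ)| ≤ X → |(b : ℝ)| ≤ X →
      c ≤ X ^ (1 + η) * |(a : ℝ) + b * Real.exp 1 ^ j| := by
  obtain ⟨c, hc, h⟩ := meas_sparse {0, j} (by simp) 1
    (by rw [Finset.card_pair (by omega)]) η hη
  refine ⟨c, hc, fun X hX a b hab ha hb => ?_⟩
  have h1 := h (C a + C b * Polynomial.X ^ j) (by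
    intro h0
    have e0 := congrArg (fun P => coeff P 0) h0
    have e1 := congrArg (fun P => coeff P j) h0
    simp only [coeff_add, coeff_C_mul_X_pow, coeff_zero, coeff_C_zero] at e0 e1
    rw [if_neg (by omega), add_zero] at e0
    rw [if_true, coeff_C_ne_zero (by omega), zero_add] at e1
    rcases hab with h | h
    · exact h e0
    · exact h e1) (by
    intro n hn
    rw [mem_support_iff] at hn
    rw [Finset.mem_insert, Finset.mem_singleton]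
    by_contra hcon
    rw [not_or] at hcon
    apply hn
    rw [coeff_add, coeff_C_ne_zero hcon.1, coeff_C_mul_X_pow, if_neg hcon.2, add_zero]) X hX (by
    intro n
    rw [coeff_add, coeff_C_mul_X_pow]
    by_cases h0 : n = 0
    · subst h0
      rw [if_neg (by omega), add_zero, coeff_C_zero]
      exact ha
    · rw [coeff_C_ne_zero h0]
      split_ifs
      · rw [zero_add]
        exact hb
      · rw [add_zero, Int.cast_zero, abs_zero]
        linarith)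
  have e : aeval (Real.exp 1) (C a + C b * Polynomial.X ^ j : ℤ[X]) =
      (a : ℝ) + b * Real.exp 1 ^ j := by simp
  rw [e] at h1
  exact_mod_cast h1

/-- an upper bound for the auxiliary number -/
theorem EE_upper (j k l m N : ℕ) (hk : 1 ≤ k) (hm : 1 ≤ m) (hkN : k ≤ N) (hmN : m ≤ N)
    (a b d a' b' d' : ℤ) (t T X ε : ℝ) (hT : 1 ≤ T) (ht : |t| ≤ T) (hX : 1 ≤ X) (hε1 : ε ≤ 1)
    (hd : |(d : ℝ)| ≤ X) (hd' : |(d' : ℝ)| ≤ X)
    (h1 : |(a : ℝ) + b * Real.exp 1 ^ j + d * t ^ k| ≤ ε)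
    (h2 : |(a' : ℝ) + b' * Real.exp 1 ^ l + d' * t ^ m| ≤ ε) :
    |aeval (Real.exp 1) (EE j k l m a b d a' b' d')| ≤
      2 * N * (2 * T ^ N) ^ N * X ^ (k + m - 1) * ε := by
  rw [EE_aeval]
  obtain ⟨A, hA⟩ : ∃ A : ℝ, A = (a : ℝ) + b * Real.exp 1 ^ j := ⟨_, rfl⟩
  obtain ⟨A', hA'⟩ : ∃ A' : ℝ, A' = (a' : ℝ) + b' * Real.exp 1 ^ l := ⟨_, rfl⟩
  rw [← hA, ← hA']
  rw [← hA] at h1
  rw [← hA'] at h2
  obtain ⟨M, hM⟩ : ∃ M : ℝ, M = 2 * T ^ N * X := ⟨_, rfl⟩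
  have hTN : 1 ≤ T ^ N := one_le_pow₀ hT
  have hε0 : 0 ≤ ε := (abs_nonneg _).trans h1
  have hB : ∀ (d : ℤ) (k : ℕ), |(d : ℝ)| ≤ X → k ≤ N → |-((d : ℝ) * t ^ k)| ≤ T ^ N * X := by
    intro d k hd hkN
    rw [abs_neg, abs_mul, abs_pow, mul_comm]
    refine mul_le_mul ?_ hd (abs_nonneg _) (by positivity)
    calc |t| ^ k ≤ T ^ k := pow_le_pow_left₀ (abs_nonneg _) ht _
      _ ≤ T ^ N := pow_le_pow_right₀ hT hkN
  have hTX : 1 ≤ T ^ N * X := by nlinarith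
  have hAM : ∀ (A : ℝ) (d : ℤ) (k : ℕ), |(d : ℝ)| ≤ X → k ≤ N → |A + d * t ^ k| ≤ ε → |A| ≤ M := by
    intro A d k hd hkN h
    have h3 := hB d k hd hkN
    have e : A = (A + d * t ^ k) + -((d : ℝ) * t ^ k) := by ring
    rw [e, hM]
    refine (abs_add_le _ _).trans ?_
    nlinarith
  have hBM : ∀ (d : ℤ) (k : ℕ), |(d : ℝ)| ≤ X → k ≤ N → |-((d : ℝ) * t ^ k)| ≤ M := by
    intro d k hd hkN
    refine (hB d k hd hkN).trans ?_
    rw [hM]
    nlinarith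
  have key : (-(d' : ℝ)) ^ k * A ^ m - (-(d : ℝ)) ^ m * A' ^ k =
      (-(d' : ℝ)) ^ k * (A ^ m - (-((d : ℝ) * t ^ k)) ^ m) -
      (-(d : ℝ)) ^ m * (A' ^ k - (-((d' : ℝ) * t ^ m)) ^ k) := by
    have e1 : (-((d : ℝ) * t ^ k)) ^ m = (-(d : ℝ)) ^ m * t ^ (k * m) := by
      rw [← neg_mul, mul_pow, ← pow_mul]
    have e2 : (-((d' : ℝ) * t ^ m)) ^ k = (-(d' : ℝ)) ^ k * t ^ (k * m) := by
      rw [← neg_mul, mul_pow, ← pow_mul, mul_comm m k]
    rw [e1, e2]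
    ring
  rw [key]
  have p1 : |A ^ m - (-((d : ℝ) * t ^ k)) ^ m| ≤ m * M ^ (m - 1) * ε := by
    refine (abs_pow_sub_le _ _ M (hAM A d k hd hkN h1) (hBM d k hd hkN) m).trans ?_
    rw [sub_neg_eq_add]
    have hM0 : 0 ≤ M := by rw [hM]; positivity
    exact mul_le_mul_of_nonneg_left h1 (by positivity)
  have p2 : |A' ^ k - (-((d' : ℝ) * t ^ m)) ^ k| ≤ k * M ^ (k - 1) * ε := by
    refine (abs_pow_sub_le _ _ M (hAM A' d' m hd' hmN h2) (hBM d' m hd' hmN) k).trans ?_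
    rw [sub_neg_eq_add]
    have hM0 : 0 ≤ M := by rw [hM]; positivity
    exact mul_le_mul_of_nonneg_left h2 (by positivity)
  have hM0 : 0 ≤ M := by rw [hM]; positivity
  have q : ∀ (D : ℝ) (k m : ℕ) (Z : ℝ), |D| ≤ X → m ≤ N → 1 ≤ m → |Z| ≤ m * M ^ (m - 1) * ε →
      |D ^ k * Z| ≤ N * (2 * T ^ N) ^ N * X ^ (k + m - 1) * ε := by
    intro D k m Z hD hmN hm hZ
    rw [abs_mul, abs_pow]
    have e1 : M ^ (m - 1) = (2 * T ^ N) ^ (m - 1) * X ^ (m - 1) := by rw [hM, mul_pow]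
    have e2 : (2 * T ^ N) ^ (m - 1) ≤ (2 * T ^ N) ^ N :=
      pow_le_pow_right₀ (by linarith) (by omega)
    have e3 : (m : ℝ) ≤ N := by exact_mod_cast hmN
    calc |D| ^ k * |Z| ≤ X ^ k * (m * M ^ (m - 1) * ε) :=
          mul_le_mul (pow_le_pow_left₀ (abs_nonneg _) hD _) hZ (abs_nonneg _) (by positivity)
      _ = m * (2 * T ^ N) ^ (m - 1) * (X ^ k * X ^ (m - 1)) * ε := by rw [e1]; ring
      _ ≤ N * (2 * T ^ N) ^ N * (X ^ k * X ^ (m - 1)) * ε := by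
          gcongr
      _ = N * (2 * T ^ N) ^ N * X ^ (k + m - 1) * ε := by
          rw [← pow_add]
          congr 3
          omega
  have q1 := q (-(d' : ℝ)) k m _ (by rwa [abs_neg]) hmN hm p1
  have q2 := q (-(d : ℝ)) m k _ (by rwa [abs_neg]) hkN hk p2
  refine (abs_sub _ _).trans ((add_le_add q1 q2).trans (le_of_eq ?_))
  rw [add_comm m k]
  ring

/-- different pairs of exponents -/
theorem general (N : ℕ) (η T : ℝ) (hη : 0 < η) : ∃ c : ℝ, 0 < c ∧ c ≤ 1 ∧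
    ∀ t : ℝ, |t| ≤ T → ∀ X : ℝ, 1 ≤ X → ∀ j k l m : ℕ, 1 ≤ j → 1 ≤ k → 1 ≤ l → 1 ≤ m → j ≤ N →
      k ≤ N → l ≤ N → m ≤ N → ¬ (j = l ∧ k = m) → ∀ a b d a' b' d' : ℤ, b ≠ 0 → b' ≠ 0 →
      |(a : ℝ)| ≤ X → |(b : ℝ)| ≤ X → |(d : ℝ)| ≤ X →
      |(a' : ℝ)| ≤ X → |(b' : ℝ)| ≤ X → |(d' : ℝ)| ≤ X →
      |(a : ℝ) + b * Real.exp 1 ^ j + d * t ^ k| <
        c * X ^ (-(((k : ℝ) + m) ^ 2 + (k + m) - 1 + η)) →
      |(a' : ℝ) + b' * Real.exp 1 ^ l + d' * t ^ m| <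
        c * X ^ (-(((k : ℝ) + m) ^ 2 + (k + m) - 1 + η)) →
      a = 0 ∧ a' = 0 ∧ j * m = l * k := by
  rcases Nat.eq_zero_or_pos N with hN0 | hN
  · exact ⟨1, one_pos, le_rfl, fun t _ X _ j k l m hj _ _ _ hjN => by omega⟩
  have hNR : (1 : ℝ) ≤ N := by exact_mod_cast hN
  obtain ⟨η1, hη1⟩ : ∃ η1 : ℝ, η1 = η / (2 * N) := ⟨_, rfl⟩
  have hη10 : 0 < η1 := by rw [hη1]; positivity
  have hη1N : 2 * N * η1 = η := by rw [hη1]; field_simp
  obtain ⟨T', hT'⟩ : ∃ T' : ℝ, T' = max T 1 := ⟨_, rfl⟩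
  have hT'1 : 1 ≤ T' := by rw [hT']; exact le_max_right _ _
  have hTT' : T ≤ T' := by rw [hT']; exact le_max_left _ _
  choose f hf0 hf using fun (q : ℕ × ℕ × ℕ × ℕ) => meas_sparse (Sup q.1 q.2.1 q.2.2.1 q.2.2.2)
    (zero_mem_Sup _ _ _ _) (q.2.1 + q.2.2.2) (card_Sup _ _ _ _) η1 hη10
  choose g hg0 hg using fun (j : ℕ) => two_terms (j + 1) (by omega) η1 hη10
  obtain ⟨K, hK⟩ : ∃ K : ℝ, K = (2 : ℝ) ^ (2 * (N : ℝ) * (2 * N + η1)) *
    (2 * N * (2 * T' ^ N) ^ N) := ⟨_, rfl⟩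
  have hK0 : 0 < K := by rw [hK]; positivity
  obtain ⟨c1, hc1, hc1f⟩ := exists_pos_le
    ((Finset.range (N + 1)) ×ˢ (Finset.range (N + 1)) ×ˢ (Finset.range (N + 1)) ×ˢ
      (Finset.range (N + 1))) f (fun q _ => hf0 q)
  obtain ⟨c2, hc2, hc2g⟩ := exists_pos_le (Finset.range (N + 1)) g (fun q _ => hg0 q)
  obtain ⟨c, hc⟩ : ∃ c : ℝ, c = min 1 (min (c1 / (2 * K)) c2) := ⟨_, rfl⟩
  have hc0 : 0 < c := by
    rw [hc]
    exact lt_min one_pos (lt_min (div_pos hc1 (by linarith)) hc2)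
  have hcle1 : c ≤ 1 := by rw [hc]; exact min_le_left _ _
  have hclec1 : c ≤ c1 / (2 * K) := by
    rw [hc]; exact (min_le_right _ _).trans (min_le_left _ _)
  have hclec2 : c ≤ c2 := by
    rw [hc]; exact (min_le_right _ _).trans (min_le_right _ _)
  refine ⟨c, hc0, hcle1, ?_⟩
  intro t ht X hX j k l m hj hk hl hm hjN hkN hlN hmN hne a b d a' b' d' hb hb' ha1 hb1 hd1 ha1'
    hb1' hd1' h1 h2
  have hX0 : 0 < X := by linarith
  have hkR : (1 : ℝ) ≤ k := by exact_mod_cast hk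
  have hmR : (1 : ℝ) ≤ m := by exact_mod_cast hm
  have hkNR : (k : ℝ) ≤ N := by exact_mod_cast hkN
  have hmNR : (m : ℝ) ≤ N := by exact_mod_cast hmN
  obtain ⟨s, hs⟩ : ∃ s : ℝ, s = (k : ℝ) + m := ⟨_, rfl⟩
  rw [← hs] at h1 h2
  have hs2 : 2 ≤ s := by linarith
  have hsN : s ≤ 2 * N := by linarith
  obtain ⟨w, hw⟩ : ∃ w : ℝ, w = s ^ 2 + s - 1 + η := ⟨_, rfl⟩
  rw [← hw] at h1 h2
  have hη1η : η1 ≤ η := by nlinarith
  have hw1 : 1 + η1 ≤ w := by nlinarith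
  -- `d` is not zero
  have hdne : ∀ (j : ℕ) (a b d : ℤ) (y : ℝ), 1 ≤ j → j ≤ N → b ≠ 0 → |(a : ℝ)| ≤ X →
      |(b : ℝ)| ≤ X → |(a : ℝ) + b * Real.exp 1 ^ j + d * y| < c * X ^ (-w) → d ≠ 0 := by
    intro j a b d y hj hjN hb ha1 hb1 h hd
    rw [hd, Int.cast_zero, zero_mul, add_zero] at h
    have h3 := hg (j - 1) X hX a b (Or.inr hb) ha1 hb1
    rw [show j - 1 + 1 = j by omega] at h3
    have h4 := hc2g (j - 1) (by rw [Finset.mem_range]; omega)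
    have h5 : X ^ (1 + η1) * |(a : ℝ) + b * Real.exp 1 ^ j| < X ^ (1 + η1) * (c * X ^ (-w)) :=
      mul_lt_mul_of_pos_left h (Real.rpow_pos_of_pos hX0 _)
    have h6 : X ^ (1 + η1) * (c * X ^ (-w)) ≤ c := by
      have h7 : X ^ (1 + η1) * X ^ (-w) ≤ 1 := by
        rw [← Real.rpow_add hX0]
        exact Real.rpow_le_one_of_one_le_of_nonpos hX (by linarith)
      calc X ^ (1 + η1) * (c * X ^ (-w)) = c * (X ^ (1 + η1) * X ^ (-w)) := by ring
        _ ≤ c * 1 := mul_le_mul_of_nonneg_left h7 hc0.le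
        _ = c := mul_one c
    linarith
  have hd : d ≠ 0 := hdne j a b d _ hj hjN hb ha1 hb1 h1
  have hd' : d' ≠ 0 := hdne l a' b' d' _ hl hlN hb' ha1' hb1' h2
  by_cases hE : EE j k l m a b d a' b' d' = 0
  · obtain ⟨e1, e2⟩ := EE_ne j k l m hj hk hl hm a b d a' b' d' hb hb' hd hd' hE
    rcases e2 with e2 | e2
    · exact ⟨e2.1, e2.2, e1⟩
    · exact absurd e2 hne
  · exfalso
    obtain ⟨ε, hε⟩ : ∃ ε : ℝ, ε = c * X ^ (-w) := ⟨_, rfl⟩
    have hXw : X ^ (-w) ≤ 1 := Real.rpow_le_one_of_one_le_of_nonpos hX (by linarith)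
    have hXw0 : 0 < X ^ (-w) := Real.rpow_pos_of_pos hX0 _
    have hε1 : ε ≤ 1 := by
      rw [hε]
      calc c * X ^ (-w) ≤ 1 * 1 := mul_le_mul hcle1 hXw hXw0.le zero_le_one
        _ = 1 := one_mul 1
    rw [← hε] at h1 h2
    have hup := EE_upper j k l m N hk hm hkN hmN a b d a' b' d' t T' X ε hT'1 (ht.trans hTT') hX
      hε1 hd1 hd1' h1.le h2.le
    have hlow := hf (j, k, l, m) _ hE (EE_support _ _ _ _ _ _ _ _ _ _) ((2 * X) ^ (k + m))
      (one_le_pow₀ (by linarith)) (EE_coeff j k l m hk hm a b d a' b' d' X hX ha1 hb1 hd1 ha1' hb1'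
        hd1')
    simp only at hlow
    have hcq := hc1f (j, k, l, m) (by
      simp only [Finset.mem_product, Finset.mem_range]
      omega)
    have hpow : ((2 * X) ^ (k + m)) ^ (((k + m : ℕ) : ℝ) + η1) ≤
        (2 : ℝ) ^ (2 * (N : ℝ) * (2 * N + η1)) * X ^ (s ^ 2 + η) := by
      have e1 : ((k + m : ℕ) : ℝ) = s := by rw [hs]; push_cast; ring
      rw [← Real.rpow_natCast, ← Real.rpow_mul (by positivity), e1, Real.mul_rpow (by norm_num)
        (by linarith)]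
      refine mul_le_mul ?_ ?_ (by positivity) (by positivity)
      · refine Real.rpow_le_rpow_of_exponent_le (by norm_num) ?_
        exact mul_le_mul hsN (by linarith) (by linarith) (by linarith)
      · refine Real.rpow_le_rpow_of_exponent_le hX ?_
        nlinarith
    have hXs : (X : ℝ) ^ (k + m - 1) = X ^ (s - 1) := by
      rw [← Real.rpow_natCast]
      congr 1
      rw [Nat.cast_sub (by omega), hs]
      push_cast
      ring
    rw [hXs] at hup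
    have hfin : c1 ≤ K * c := by
      calc c1 ≤ ((2 * X) ^ (k + m)) ^ (((k + m : ℕ) : ℝ) + η1) *
            |aeval (Real.exp 1) (EE j k l m a b d a' b' d')| := hcq.trans hlow
        _ ≤ ((2 : ℝ) ^ (2 * (N : ℝ) * (2 * N + η1)) * X ^ (s ^ 2 + η)) *
            (2 * N * (2 * T' ^ N) ^ N * X ^ (s - 1) * ε) :=
            mul_le_mul hpow hup (abs_nonneg _) (by positivity)
        _ = K * c * (X ^ (s ^ 2 + η) * X ^ (s - 1) * X ^ (-w)) := by
            rw [hK, hε]; ring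
        _ = K * c := by
            rw [← Real.rpow_add hX0, ← Real.rpow_add hX0,
              show s ^ 2 + η + (s - 1) + -w = 0 by rw [hw]; ring, Real.rpow_zero, mul_one]
    rw [le_div_iff₀ (by linarith)] at hclec1
    have : 0 < K * c := mul_pos hK0 hc0
    linarith

end Pool.Agent.H118.EP
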