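import Mathlib
import Pool.Agent.H118.EP.Scale

set_option autoImplicit false

/-!
# Near relations at one scale, arbitrary real numbers
-/

namespace Pool.Agent.H118.EP

open Finset Polynomial

theorem lin_upper (j l : ℕ) (a b d a' b' d' : ℤ) (t X u v : ℝ)
    (hd : |(d : ℝ)| ≤ X) (hd' : |(d' : ℝ)| ≤ X)
    (h1 : |(a : ℝ) + b * Real.exp 1 ^ j + d * t| ≤ u)
    (h2 : |(a' : ℝ) + b' * Real.exp 1 ^ l + d' * t| ≤ v) :
    |aeval (Real.exp 1) (EE j 1 l 1 a b d a' b' d')| ≤ X * (u + v) := by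
  rw [EE_aeval]
  have e : (-(d' : ℝ)) ^ 1 * (a + b * Real.exp 1 ^ j) ^ 1 -
      (-(d : ℝ)) ^ 1 * (a' + b' * Real.exp 1 ^ l) ^ 1 =
      d * ((a' : ℝ) + b' * Real.exp 1 ^ l + d' * t) - d' * ((a : ℝ) + b * Real.exp 1 ^ j + d * t) := by
    ring
  rw [e]
  refine (abs_sub _ _).trans ?_
  rw [abs_mul, abs_mul]
  have p1 := mul_le_mul hd h2 (abs_nonneg _) ((abs_nonneg _).trans hd)
  have p2 := mul_le_mul hd' h1 (abs_nonneg _) ((abs_nonneg _).trans hd')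
  linarith

theorem EE_same_zero (j : ℕ) (hj : 1 ≤ j) (a b d a' b' d' : ℤ)
    (h : EE j 1 j 1 a b d a' b' d' = 0) : a * d' = a' * d ∧ b * d' = b' * d := by
  unfold EE at h
  have e0 := congrArg (fun P => coeff P 0) h
  have e1 := congrArg (fun P => coeff P j) h
  simp only [pow_one, coeff_sub, coeff_C_mul, coeff_add, coeff_X_pow, coeff_zero, coeff_C_zero] at e0 e1
  rw [coeff_C_ne_zero (by omega), coeff_C_ne_zero (by omega), if_true] at e1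
  rw [if_neg (by omega)] at e0
  constructor
  · linarith
  · linarith

/-- the same exponent -/
theorem lin_same (j : ℕ) (hj : 1 ≤ j) (η : ℝ) (hη : 0 < η) : ∃ c : ℝ, 0 < c ∧
    ∀ t X : ℝ, 1 ≤ X → ∀ a b d a' b' d' : ℤ, b ≠ 0 → b' ≠ 0 →
      |(a : ℝ)| ≤ X → |(b : ℝ)| ≤ X → |(d : ℝ)| ≤ X →
      |(a' : ℝ)| ≤ X → |(b' : ℝ)| ≤ X → |(d' : ℝ)| ≤ X →
      |(a : ℝ) + b * Real.exp 1 ^ j + d * t| < c * X ^ (-(3 + η)) →
      |(a' : ℝ) + b' * Real.exp 1 ^ j + d' * t| < c * X ^ (-(3 + η)) → Prp a b d a' b' d' := by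
  obtain ⟨c1, hc1, h1⟩ := two_terms j hj η hη
  have hcard : (Sup j 1 j 1).card ≤ 1 + 1 := by
    unfold Sup
    rw [Finset.union_self]
    exact Finset.card_image_le.trans (by simp)
  obtain ⟨c2, hc2, h2⟩ := meas_sparse (Sup j 1 j 1) (zero_mem_Sup _ _ _ _) 1 hcard (η / 2)
    (by linarith)
  obtain ⟨K, hK⟩ : ∃ K : ℝ, K = (2 : ℝ) ^ (2 + η) * 2 := ⟨_, rfl⟩
  have hK0 : 0 < K := by rw [hK]; positivity
  obtain ⟨c, hc⟩ : ∃ c : ℝ, c = min c1 (c2 / (2 * K)) := ⟨_, rfl⟩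
  have hc0 : 0 < c := by rw [hc]; exact lt_min hc1 (div_pos hc2 (by linarith))
  have hcc1 : c ≤ c1 := by rw [hc]; exact min_le_left _ _
  have hcc2 : c ≤ c2 / (2 * K) := by rw [hc]; exact min_le_right _ _
  refine ⟨c, hc0, ?_⟩
  intro t X hX a b d a' b' d' hb hb' ha1 hb1 hd1 ha1' hb1' hd1' g1 g2
  have hX0 : 0 < X := by linarith
  have hdne : ∀ (a b d : ℤ), b ≠ 0 → |(a : ℝ)| ≤ X →
      |(b : ℝ)| ≤ X → |(a : ℝ) + b * Real.exp 1 ^ j + d * t| < c * X ^ (-(3 + η)) → d ≠ 0 := by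
    intro a b d hb ha1 hb1 h hd
    rw [hd, Int.cast_zero, zero_mul, add_zero] at h
    have h3 := h1 X hX a b (Or.inr hb) ha1 hb1
    have h5 : X ^ (1 + η) * |(a : ℝ) + b * Real.exp 1 ^ j| < X ^ (1 + η) * (c * X ^ (-(3 + η))) :=
      mul_lt_mul_of_pos_left h (Real.rpow_pos_of_pos hX0 _)
    have h6 : X ^ (1 + η) * (c * X ^ (-(3 + η))) ≤ c := by
      have h7 : X ^ (1 + η) * X ^ (-(3 + η)) ≤ 1 := by
        rw [← Real.rpow_add hX0]
        exact Real.rpow_le_one_of_one_le_of_nonpos hX (by linarith)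
      calc X ^ (1 + η) * (c * X ^ (-(3 + η))) = c * (X ^ (1 + η) * X ^ (-(3 + η))) := by ring
        _ ≤ c * 1 := mul_le_mul_of_nonneg_left h7 hc0.le
        _ = c := mul_one c
    linarith
  have hd := hdne a b d hb ha1 hb1 g1
  have hd' := hdne a' b' d' hb' ha1' hb1' g2
  by_cases hE : EE j 1 j 1 a b d a' b' d' = 0
  · obtain ⟨e1, e2⟩ := EE_same_zero j hj a b d a' b' d' hE
    exact prp_of a b d a' b' d' hd hd' e1 e2
  · exfalso
    have hlow := h2 _ hE (EE_support _ _ _ _ _ _ _ _ _ _) ((2 * X) ^ (1 + 1))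
      (one_le_pow₀ (by linarith)) (EE_coeff j 1 j 1 le_rfl le_rfl a b d a' b' d' X hX ha1 hb1 hd1
        ha1' hb1' hd1')
    have hup := lin_upper j j a b d a' b' d' t X _ _ hd1 hd1' g1.le g2.le
    have hpow : ((2 * X) ^ (1 + 1)) ^ (((1 : ℕ) : ℝ) + η / 2) = (2 : ℝ) ^ (2 + η) * X ^ (2 + η) := by
      rw [← Real.rpow_natCast, ← Real.rpow_mul (by positivity), ← Real.mul_rpow (by norm_num)
        (by linarith)]
      congr 1
      push_cast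
      ring
    rw [hpow] at hlow
    have hfin : c2 ≤ K * c := by
      calc c2 ≤ (2 : ℝ) ^ (2 + η) * X ^ (2 + η) * |aeval (Real.exp 1) (EE j 1 j 1 a b d a' b' d')| :=
            hlow
        _ ≤ (2 : ℝ) ^ (2 + η) * X ^ (2 + η) * (X * (c * X ^ (-(3 + η)) + c * X ^ (-(3 + η)))) :=
            mul_le_mul_of_nonneg_left hup (by positivity)
        _ = K * c * (X ^ (2 + η) * X ^ (1 : ℝ) * X ^ (-(3 + η))) := by
            rw [hK, Real.rpow_one]; ring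
        _ = K * c := by
            rw [← Real.rpow_add hX0, ← Real.rpow_add hX0,
              show 2 + η + 1 + -(3 + η) = 0 by ring, Real.rpow_zero, mul_one]
    rw [le_div_iff₀ (by linarith)] at hcc2
    have : 0 < K * c := mul_pos hK0 hc0
    linarith

/-- two different exponents and arbitrary `t` -/
theorem lin_diff (j l : ℕ) (hj : 1 ≤ j) (hl : 1 ≤ l) (hjl : j ≠ l) (η : ℝ) (hη : 0 < η) :
    ∃ c : ℝ, 0 < c ∧
    ∀ t X : ℝ, 1 ≤ X → ∀ a b d a' b' d' : ℤ, b ≠ 0 → b' ≠ 0 →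
      |(a : ℝ)| ≤ X → |(b : ℝ)| ≤ X → |(d : ℝ)| ≤ X →
      |(a' : ℝ)| ≤ X → |(b' : ℝ)| ≤ X → |(d' : ℝ)| ≤ X →
      |(a : ℝ) + b * Real.exp 1 ^ j + d * t| < c * X ^ (-(5 + η)) →
      ¬ |(a' : ℝ) + b' * Real.exp 1 ^ l + d' * t| < c * X ^ (-(5 + η)) := by
  obtain ⟨c1, hc1, h1⟩ := two_terms j hj η hη
  obtain ⟨c3, hc3, h3⟩ := two_terms l hl η hη
  obtain ⟨c2, hc2, h2⟩ := meas_sparse (Sup j 1 l 1) (zero_mem_Sup _ _ _ _) (1 + 1)
    (card_Sup _ _ _ _) (η / 2) (by linarith)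
  obtain ⟨K, hK⟩ : ∃ K : ℝ, K = (2 : ℝ) ^ (4 + η) * 2 := ⟨_, rfl⟩
  have hK0 : 0 < K := by rw [hK]; positivity
  obtain ⟨c, hc⟩ : ∃ c : ℝ, c = min (min c1 c3) (c2 / (2 * K)) := ⟨_, rfl⟩
  have hc0 : 0 < c := by
    rw [hc]; exact lt_min (lt_min hc1 hc3) (div_pos hc2 (by linarith))
  have hcc1 : c ≤ c1 := by rw [hc]; exact (min_le_left _ _).trans (min_le_left _ _)
  have hcc3 : c ≤ c3 := by rw [hc]; exact (min_le_left _ _).trans (min_le_right _ _)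
  have hcc2 : c ≤ c2 / (2 * K) := by rw [hc]; exact min_le_right _ _
  refine ⟨c, hc0, ?_⟩
  intro t X hX a b d a' b' d' hb hb' ha1 hb1 hd1 ha1' hb1' hd1' g1 g2
  have hX0 : 0 < X := by linarith
  have hdne : ∀ (j : ℕ) (c1 : ℝ) (a b d : ℤ), c ≤ c1 → (∀ X : ℝ, 1 ≤ X → ∀ a b : ℤ, (a ≠ 0 ∨ b ≠ 0) →
      |(a : ℝ)| ≤ X → |(b : ℝ)| ≤ X → c1 ≤ X ^ (1 + η) * |(a : ℝ) + b * Real.exp 1 ^ j|) →
      b ≠ 0 → |(a : ℝ)| ≤ X →
      |(b : ℝ)| ≤ X → |(a : ℝ) + b * Real.exp 1 ^ j + d * t| < c * X ^ (-(5 + η)) → d ≠ 0 := by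
    intro j c1 a b d hcc1 h1 hb ha1 hb1 h hd
    rw [hd, Int.cast_zero, zero_mul, add_zero] at h
    have h3 := h1 X hX a b (Or.inr hb) ha1 hb1
    have h5 : X ^ (1 + η) * |(a : ℝ) + b * Real.exp 1 ^ j| < X ^ (1 + η) * (c * X ^ (-(5 + η))) :=
      mul_lt_mul_of_pos_left h (Real.rpow_pos_of_pos hX0 _)
    have h6 : X ^ (1 + η) * (c * X ^ (-(5 + η))) ≤ c := by
      have h7 : X ^ (1 + η) * X ^ (-(5 + η)) ≤ 1 := by
        rw [← Real.rpow_add hX0]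
        exact Real.rpow_le_one_of_one_le_of_nonpos hX (by linarith)
      calc X ^ (1 + η) * (c * X ^ (-(5 + η))) = c * (X ^ (1 + η) * X ^ (-(5 + η))) := by ring
        _ ≤ c * 1 := mul_le_mul_of_nonneg_left h7 hc0.le
        _ = c := mul_one c
    linarith
  have hd := hdne j c1 a b d hcc1 h1 hb ha1 hb1 g1
  have hd' := hdne l c3 a' b' d' hcc3 h3 hb' ha1' hb1' g2
  have hE : EE j 1 l 1 a b d a' b' d' ≠ 0 := by
    intro hE
    obtain ⟨e1, -⟩ := EE_ne j 1 l 1 hj le_rfl hl le_rfl a b d a' b' d' hb hb' hd hd' hE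
    omega
  have hlow := h2 _ hE (EE_support _ _ _ _ _ _ _ _ _ _) ((2 * X) ^ (1 + 1))
    (one_le_pow₀ (by linarith)) (EE_coeff j 1 l 1 le_rfl le_rfl a b d a' b' d' X hX ha1 hb1 hd1
      ha1' hb1' hd1')
  have hup := lin_upper j l a b d a' b' d' t X _ _ hd1 hd1' g1.le g2.le
  have hpow : ((2 * X) ^ (1 + 1)) ^ (((1 + 1 : ℕ) : ℝ) + η / 2) = (2 : ℝ) ^ (4 + η) * X ^ (4 + η) := by
    rw [← Real.rpow_natCast, ← Real.rpow_mul (by positivity), ← Real.mul_rpow (by norm_num)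
      (by linarith)]
    congr 1
    push_cast
    ring
  rw [hpow] at hlow
  have hfin : c2 ≤ K * c := by
    calc c2 ≤ (2 : ℝ) ^ (4 + η) * X ^ (4 + η) * |aeval (Real.exp 1) (EE j 1 l 1 a b d a' b' d')| :=
          hlow
      _ ≤ (2 : ℝ) ^ (4 + η) * X ^ (4 + η) * (X * (c * X ^ (-(5 + η)) + c * X ^ (-(5 + η)))) :=
          mul_le_mul_of_nonneg_left hup (by positivity)
      _ = K * c * (X ^ (4 + η) * X ^ (1 : ℝ) * X ^ (-(5 + η))) := by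
          rw [hK, Real.rpow_one]; ring
      _ = K * c := by
          rw [← Real.rpow_add hX0, ← Real.rpow_add hX0,
            show 4 + η + 1 + -(5 + η) = 0 by ring, Real.rpow_zero, mul_one]
  rw [le_div_iff₀ (by linarith)] at hcc2
  have : 0 < K * c := mul_pos hK0 hc0
  linarith

end Pool.Agent.H118.EP
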