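import Mathlib
import Pool.Agent.H118.EP.Scale2

set_option autoImplicit false

/-!
# Counting near relations
-/

namespace Pool.Agent.H118.EP

open Finset Polynomial

/-- a set of numbers with large gaps -/
theorem gap_exp {α : Type*} [DecidableEq α] (h : α → ℝ) (ρ : ℝ) (hρ : 1 < ρ) (n : ℕ) :
    ∀ S : Finset α, S.card = n + 1 → (∀ v ∈ S, Real.exp 1 ≤ h v) →
      (∀ v ∈ S, ∀ v' ∈ S, v ≠ v' → h v ≤ h v' → h v ^ ρ ≤ h v') →
      ∃ v ∈ S, Real.exp (ρ ^ n) ≤ h v := by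
  induction n with
  | zero =>
    intro S hS h1 _
    obtain ⟨v, hv⟩ := Finset.card_pos.1 (show 0 < S.card by omega)
    exact ⟨v, hv, by simpa using h1 v hv⟩
  | succ n ih =>
    intro S hS h1 h2
    obtain ⟨v, hv, hmax⟩ := Finset.exists_max_image S h (Finset.card_pos.1 (by omega))
    obtain ⟨v', hv', h3⟩ := ih (S.erase v) (by rw [Finset.card_erase_of_mem hv]; omega)
      (fun u hu => h1 u (Finset.mem_of_mem_erase hu))
      (fun u hu u' hu' => h2 u (Finset.mem_of_mem_erase hu) u' (Finset.mem_of_mem_erase hu'))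
    have hv'S := Finset.mem_of_mem_erase hv'
    refine ⟨v, hv, ?_⟩
    have h4 := h2 v' hv'S v hv (Finset.ne_of_mem_erase hv') (hmax v' hv'S)
    refine le_trans ?_ h4
    rw [pow_succ, Real.exp_mul]
    exact Real.rpow_le_rpow (Real.exp_pos _).le h3 (by linarith)

theorem gap_count {α : Type*} [DecidableEq α] (h : α → ℝ) (ρ X : ℝ) (hρ : 1 < ρ) (hX : 3 ≤ X)
    (S : Finset α) (h1 : ∀ v ∈ S, Real.exp 1 ≤ h v) (hSX : ∀ v ∈ S, h v ≤ X)
    (h2 : ∀ v ∈ S, ∀ v' ∈ S, v ≠ v' → h v ≤ h v' → h v ^ ρ ≤ h v') :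
    (S.card : ℝ) ≤ Real.log (Real.log X) / Real.log ρ + 1 := by
  have hlρ : 0 < Real.log ρ := Real.log_pos hρ
  have he : Real.exp 1 ≤ X := by
    have := Real.exp_one_lt_d9
    linarith
  have hlX : 1 ≤ Real.log X := by
    rw [Real.le_log_iff_exp_le (by linarith)]
    exact he
  rcases Nat.eq_zero_or_pos S.card with h0 | h0
  · rw [h0]
    have : 0 ≤ Real.log (Real.log X) := Real.log_nonneg hlX
    push_cast
    positivity
  · obtain ⟨n, hn⟩ : ∃ n, S.card = n + 1 := ⟨S.card - 1, by omega⟩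
    obtain ⟨v, hv, h3⟩ := gap_exp h ρ hρ n S hn h1 h2
    have h4 : Real.exp (ρ ^ n) ≤ X := h3.trans (hSX v hv)
    have h5 : ρ ^ n ≤ Real.log X := by
      rwa [Real.le_log_iff_exp_le (by linarith)]
    have h6 : (n : ℝ) * Real.log ρ ≤ Real.log (Real.log X) := by
      rw [← Real.log_pow]
      exact Real.log_le_log (by positivity) h5
    rw [hn]
    push_cast
    have h7 : (n : ℝ) ≤ Real.log (Real.log X) / Real.log ρ := by
      rwa [le_div_iff₀ hlρ]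
    linarith

/-- proportional primitive vectors -/
theorem prim_eq (a b d a' b' d' : ℤ) (hd : 0 < d) (hd' : 0 < d')
    (hg : Int.gcd a (Int.gcd b d) = 1) (hg' : Int.gcd a' (Int.gcd b' d') = 1)
    (h1 : a * d' = a' * d) (h2 : b * d' = b' * d) : a = a' ∧ b = b' ∧ d = d' := by
  have key : ∀ a b d a' b' d' : ℤ, Int.gcd a' (Int.gcd b' d') = 1 → a * d' = a' * d →
      b * d' = b' * d → d' ∣ d := by
    intro a b d a' b' d' hg' h1 h2
    have e1 := Int.gcd_eq_gcd_ab a' (Int.gcd b' d')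
    have e2 := Int.gcd_eq_gcd_ab b' d'
    rw [hg'] at e1
    refine ⟨a * Int.gcdA a' (Int.gcd b' d') + (b * Int.gcdA b' d' + d * Int.gcdB b' d') *
      Int.gcdB a' (Int.gcd b' d'), ?_⟩
    push_cast at e1
    have e3 : d = d * (a' * Int.gcdA a' (Int.gcd b' d') +
        (b' * Int.gcdA b' d' + d' * Int.gcdB b' d') * Int.gcdB a' (Int.gcd b' d')) := by
      rw [← e2, ← e1, mul_one]
    refine e3.trans ?_
    linear_combination (-(Int.gcdA a' (Int.gcd b' d'))) * h1 -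
      (Int.gcdA b' d' * Int.gcdB a' (Int.gcd b' d')) * h2
  have hdd : d = d' := by
    have h3 := key a b d a' b' d' hg' h1 h2
    have h4 := key a' b' d' a b d hg h1.symm h2.symm
    exact Int.dvd_antisymm hd.le hd'.le h4 h3
  subst hdd
  exact ⟨mul_right_cancel₀ hd.ne' h1, mul_right_cancel₀ hd.ne' h2, rfl⟩

theorem lin_coeff (j l : ℕ) (a b d a' b' d' : ℤ) (h h' : ℝ) (ha : |(a : ℝ)| ≤ h)
    (hb : |(b : ℝ)| ≤ h) (hd : |(d : ℝ)| ≤ h) (ha' : |(a' : ℝ)| ≤ h') (hb' : |(b' : ℝ)| ≤ h')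
    (hd' : |(d' : ℝ)| ≤ h') (hj : 1 ≤ j) (hl : 1 ≤ l) (n : ℕ) :
    |((EE j 1 l 1 a b d a' b' d').coeff n : ℝ)| ≤ 2 * (h * h') := by
  have hc : ∀ (j : ℕ) (a b : ℤ) (h : ℝ), 1 ≤ j → |(a : ℝ)| ≤ h → |(b : ℝ)| ≤ h →
      |(((C a + C b * X ^ j : ℤ[X]).coeff n : ℤ) : ℝ)| ≤ h := by
    intro j a b h hj ha hb
    rw [coeff_add, coeff_C_mul_X_pow]
    by_cases h0 : n = 0
    · subst h0
      rw [if_neg (by omega), add_zero, coeff_C_zero]
      exact ha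
    · rw [coeff_C_ne_zero h0]
      split_ifs
      · rw [zero_add]
        exact hb
      · rw [add_zero, Int.cast_zero, abs_zero]
        exact (abs_nonneg _).trans ha
  unfold EE
  simp only [pow_one]
  rw [coeff_sub, coeff_C_mul, coeff_C_mul]
  push_cast
  refine (abs_sub _ _).trans ?_
  rw [abs_mul, abs_mul, abs_neg, abs_neg]
  have p1 := mul_le_mul hd' (hc j a b h hj ha hb) (abs_nonneg _) ((abs_nonneg _).trans hd')
  have p2 := mul_le_mul hd (hc l a' b' h' hl ha' hb') (abs_nonneg _) ((abs_nonneg _).trans hd)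
  linarith

/-- the gap principle -/
theorem gap (j l m : ℕ) (hj : 1 ≤ j) (hl : 1 ≤ l) (hm : (Sup j 1 l 1).card ≤ m + 1) (w ρ : ℝ)
    (hρ : 1 < ρ) (hw : (m : ℝ) + ρ * (m + 1) < w) : ∃ H : ℝ, ∀ (t h h' : ℝ), H ≤ h → 1 ≤ h →
      h ≤ h' → ∀ a b d a' b' d' : ℤ,
      EE j 1 l 1 a b d a' b' d' ≠ 0 →
      |(a : ℝ)| ≤ h → |(b : ℝ)| ≤ h → |(d : ℝ)| ≤ h →
      |(a' : ℝ)| ≤ h' → |(b' : ℝ)| ≤ h' → |(d' : ℝ)| ≤ h' →
      |(a : ℝ) + b * Real.exp 1 ^ j + d * t| ≤ h ^ (-w) →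
      |(a' : ℝ) + b' * Real.exp 1 ^ l + d' * t| ≤ h' ^ (-w) → h ^ ρ ≤ h' := by
  -- choice of `η`
  obtain ⟨κ, hκ⟩ : ∃ κ : ℝ, κ = w - (m + ρ * (m + 1)) := ⟨_, rfl⟩
  have hκ0 : 0 < κ := by rw [hκ]; linarith
  obtain ⟨η, hη⟩ : ∃ η : ℝ, η = κ / (2 * (1 + ρ)) := ⟨_, rfl⟩
  have hη0 : 0 < η := by rw [hη]; positivity
  have hηκ : η * (1 + ρ) = κ / 2 := by rw [hη]; field_simp
  obtain ⟨c, hc, hmeas⟩ := meas_sparse (Sup j 1 l 1) (zero_mem_Sup _ _ _ _) m hm η hη0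
  obtain ⟨K, hK⟩ : ∃ K : ℝ, K = (2 : ℝ) ^ ((m : ℝ) + η) * 2 := ⟨_, rfl⟩
  have hK0 : 0 < K := by rw [hK]; positivity
  refine ⟨(2 * K / c) ^ (2 / κ), ?_⟩
  intro t h h' hH h1 hh' a b d a' b' d' hE ha hb hd ha' hb' hd' g1 g2
  by_contra hcon
  push Not at hcon
  have h0 : 0 < h := by linarith
  have h'0 : 0 < h' := by linarith
  have hlow := hmeas _ hE (EE_support _ _ _ _ _ _ _ _ _ _) (2 * (h * h')) (by nlinarith)
    (lin_coeff j l a b d a' b' d' h h' ha hb hd ha' hb' hd' hj hl)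
  have hup : |aeval (Real.exp 1) (EE j 1 l 1 a b d a' b' d')| ≤ 2 * (h' * h ^ (-w)) := by
    rw [EE_aeval]
    have e : (-(d' : ℝ)) ^ 1 * (a + b * Real.exp 1 ^ j) ^ 1 -
        (-(d : ℝ)) ^ 1 * (a' + b' * Real.exp 1 ^ l) ^ 1 =
        d * ((a' : ℝ) + b' * Real.exp 1 ^ l + d' * t) -
          d' * ((a : ℝ) + b * Real.exp 1 ^ j + d * t) := by
      ring
    rw [e]
    refine (abs_sub _ _).trans ?_
    rw [abs_mul, abs_mul]
    have p1 := mul_le_mul hd g2 (abs_nonneg _) h0.le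
    have p2 := mul_le_mul hd' g1 (abs_nonneg _) h'0.le
    have p3 : h * h' ^ (-w) ≤ h' * h ^ (-w) := by
      have : h' ^ (-w) ≤ h ^ (-w) := by
        rw [Real.rpow_neg h'0.le, Real.rpow_neg h0.le]
        apply inv_anti₀ (Real.rpow_pos_of_pos h0 _)
        have hw0 : 0 ≤ w := by
          have : (0 : ℝ) ≤ m := Nat.cast_nonneg m
          nlinarith
        exact Real.rpow_le_rpow h0.le hh' hw0
      exact mul_le_mul hh' this (Real.rpow_nonneg h'0.le _) h'0.le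
    linarith
  -- the contradiction
  have hpow : (2 * (h * h')) ^ ((m : ℝ) + η) = (2 : ℝ) ^ ((m : ℝ) + η) * h ^ ((m : ℝ) + η) *
      h' ^ ((m : ℝ) + η) := by
    rw [Real.mul_rpow (by norm_num) (by positivity), Real.mul_rpow h0.le h'0.le]
    ring
  rw [hpow] at hlow
  have hm0 : (0 : ℝ) ≤ m := Nat.cast_nonneg m
  have h'ρ : h' ^ ((m : ℝ) + η) * h' ≤ (h ^ ρ) ^ ((m : ℝ) + η) * h ^ ρ := by
    refine mul_le_mul ?_ hcon.le h'0.le (by positivity)
    exact Real.rpow_le_rpow h'0.le hcon.le (by linarith)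
  have hfin : c ≤ K * h ^ (-(κ / 2)) := by
    calc c ≤ (2 : ℝ) ^ ((m : ℝ) + η) * h ^ ((m : ℝ) + η) * h' ^ ((m : ℝ) + η) *
          (2 * (h' * h ^ (-w))) := hlow.trans (mul_le_mul_of_nonneg_left hup (by positivity))
      _ = K * (h' ^ ((m : ℝ) + η) * h') * (h ^ ((m : ℝ) + η) * h ^ (-w)) := by rw [hK]; ring
      _ ≤ K * ((h ^ ρ) ^ ((m : ℝ) + η) * h ^ ρ) * (h ^ ((m : ℝ) + η) * h ^ (-w)) := by
          gcongr
      _ = K * h ^ (-(κ / 2)) := by
          rw [← Real.rpow_mul h0.le, mul_assoc, ← Real.rpow_add h0, ← Real.rpow_add h0,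
            ← Real.rpow_add h0]
          congr 2
          rw [hκ] at hηκ
          linarith
  have hge : 2 * K / c ≤ h ^ (κ / 2) := by
    have h5 : ((2 * K / c) ^ (2 / κ)) ^ (κ / 2) ≤ h ^ (κ / 2) :=
      Real.rpow_le_rpow (by positivity) hH (by positivity)
    rw [← Real.rpow_mul (by positivity)] at h5
    have h6 : 2 / κ * (κ / 2) = 1 := by field_simp
    rwa [h6, Real.rpow_one] at h5
  rw [Real.rpow_neg h0.le, ← div_eq_mul_inv, le_div_iff₀ (by positivity)] at hfin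
  rw [div_le_iff₀ hc] at hge
  have : 0 < h ^ (κ / 2) := Real.rpow_pos_of_pos h0 _
  nlinarith

end Pool.Agent.H118.EP
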