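import Mathlib
import Pool.Agent.H118.EP.Count

set_option autoImplicit false

/-!
# The number of near relations
-/

namespace Pool.Agent.H118.EP

open Finset Polynomial

/-- the height of an integer vector -/
noncomputable def ht (a b d : ℤ) : ℝ := max |(a : ℝ)| (max |(b : ℝ)| |(d : ℝ)|)

/-- the near relations -/
def NearRel (J : Finset ℕ) (t w X : ℝ) : Set (ℕ × ℤ × ℤ × ℤ) :=
  {v | v.1 ∈ J ∧ v.2.2.1 ≠ 0 ∧ 0 < v.2.2.2 ∧ Int.gcd v.2.1 (Int.gcd v.2.2.1 v.2.2.2) = 1 ∧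
    ht v.2.1 v.2.2.1 v.2.2.2 ≤ X ∧
    |(v.2.1 : ℝ) + v.2.2.1 * Real.exp 1 ^ v.1 + v.2.2.2 * t| ≤ ht v.2.1 v.2.2.1 v.2.2.2 ^ (-w)}

/-- integer vectors in a box -/
noncomputable def box (J : Finset ℕ) (n : ℕ) : Finset (ℕ × ℤ × ℤ × ℤ) :=
  J ×ˢ (Finset.Icc (-(n : ℤ)) n) ×ˢ (Finset.Icc (-(n : ℤ)) n) ×ˢ (Finset.Icc (-(n : ℤ)) n)

theorem mem_box (J : Finset ℕ) (n : ℕ) (v : ℕ × ℤ × ℤ × ℤ) (h1 : v.1 ∈ J) (X : ℝ) (hX : X ≤ n)
    (h2 : ht v.2.1 v.2.2.1 v.2.2.2 ≤ X) : v ∈ box J n := by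
  have key : ∀ z : ℤ, |(z : ℝ)| ≤ X → z ∈ Finset.Icc (-(n : ℤ)) n := by
    intro z hz
    have h3 := hz.trans hX
    rw [abs_le] at h3
    rw [Finset.mem_Icc]
    exact ⟨by exact_mod_cast h3.1, by exact_mod_cast h3.2⟩
  unfold box
  rw [Finset.mem_product, Finset.mem_product, Finset.mem_product]
  unfold ht at h2
  refine ⟨h1, key _ ((le_max_left _ _).trans h2),
    key _ ((le_max_left _ _).trans ((le_max_right _ _).trans h2)),
    key _ ((le_max_right _ _).trans ((le_max_right _ _).trans h2))⟩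

theorem count_main (J : Finset ℕ) (hJ : ∀ j ∈ J, 1 ≤ j) (m : ℕ)
    (hm : ∀ j ∈ J, ∀ l ∈ J, (Sup j 1 l 1).card ≤ m + 1) (w ρ : ℝ) (hρ : 1 < ρ)
    (hw : (m : ℝ) + ρ * (m + 1) < w) : ∃ C : ℝ, ∀ t X : ℝ, 3 ≤ X →
      (NearRel J t w X).Finite ∧
      ((NearRel J t w X).ncard : ℝ) ≤ Real.log (Real.log X) / Real.log ρ + C := by
  classical
  have h1 : ∀ q : ℕ × ℕ, ∃ H : ℝ, q.1 ∈ J → q.2 ∈ J → ∀ (t h h' : ℝ), H ≤ h → 1 ≤ h →
      h ≤ h' → ∀ a b d a' b' d' : ℤ,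
      EE q.1 1 q.2 1 a b d a' b' d' ≠ 0 →
      |(a : ℝ)| ≤ h → |(b : ℝ)| ≤ h → |(d : ℝ)| ≤ h →
      |(a' : ℝ)| ≤ h' → |(b' : ℝ)| ≤ h' → |(d' : ℝ)| ≤ h' →
      |(a : ℝ) + b * Real.exp 1 ^ q.1 + d * t| ≤ h ^ (-w) →
      |(a' : ℝ) + b' * Real.exp 1 ^ q.2 + d' * t| ≤ h' ^ (-w) → h ^ ρ ≤ h' := by
    rintro ⟨j, l⟩
    by_cases h : j ∈ J ∧ l ∈ J
    · obtain ⟨H, hH⟩ := gap j l m (hJ j h.1) (hJ l h.2) (hm j h.1 l h.2) w ρ hρ hw
      exact ⟨H, fun _ _ => hH⟩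
    · exact ⟨0, fun g1 g2 => absurd ⟨g1, g2⟩ h⟩
  choose f hf using h1
  obtain ⟨H0, hH0⟩ : ∃ H0 : ℝ, ∀ q ∈ J ×ˢ J, f q ≤ H0 := by
    refine ⟨∑ q ∈ J ×ˢ J, |f q|, fun q hq => (le_abs_self _).trans ?_⟩
    exact Finset.single_le_sum (f := fun q => |f q|) (fun _ _ => abs_nonneg _) hq
  obtain ⟨H, hH⟩ : ∃ H : ℝ, H = max H0 3 := ⟨_, rfl⟩
  obtain ⟨n, hn⟩ := exists_nat_ge H
  refine ⟨1 + (box J n).card, fun t X hX => ?_⟩
  have hfin : (NearRel J t w X).Finite := by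
    obtain ⟨n', hn'⟩ := exists_nat_ge X
    exact (box J n').finite_toSet.subset fun v hv =>
      Finset.mem_coe.2 (mem_box J n' v hv.1 X hn' hv.2.2.2.2.1)
  refine ⟨hfin, ?_⟩
  rw [Set.ncard_eq_toFinset_card _ hfin]
  obtain ⟨S, hS⟩ : ∃ S : Finset (ℕ × ℤ × ℤ × ℤ), S = hfin.toFinset := ⟨_, rfl⟩
  rw [← hS]
  obtain ⟨g, hg⟩ : ∃ g : ℕ × ℤ × ℤ × ℤ → ℝ, g = fun v => ht v.2.1 v.2.2.1 v.2.2.2 := ⟨_, rfl⟩
  have hmem : ∀ v ∈ S, v ∈ NearRel J t w X := fun v hv => by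
    rw [hS] at hv
    exact hfin.mem_toFinset.1 hv
  have hsplit : (S.card : ℝ) = ((S.filter (fun v => H ≤ g v)).card : ℝ) +
      ((S.filter (fun v => ¬ H ≤ g v)).card : ℝ) := by
    exact_mod_cast (Finset.card_filter_add_card_filter_not (s := S) (fun v => H ≤ g v)).symm
  have hsmall : ((S.filter (fun v => ¬ H ≤ g v)).card : ℝ) ≤ (box J n).card := by
    have : S.filter (fun v => ¬ H ≤ g v) ⊆ box J n := by
      intro v hv
      rw [Finset.mem_filter] at hv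
      refine mem_box J n v (hmem v hv.1).1 H hn ?_
      have h2 := hv.2
      rw [not_le, hg] at h2
      exact h2.le
    exact_mod_cast Finset.card_le_card this
  have hbig : ((S.filter (fun v => H ≤ g v)).card : ℝ) ≤
      Real.log (Real.log X) / Real.log ρ + 1 := by
    refine gap_count g ρ X hρ hX _ ?_ ?_ ?_
    · intro v hv
      rw [Finset.mem_filter] at hv
      refine le_trans ?_ hv.2
      rw [hH]
      refine le_trans ?_ (le_max_right _ _)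
      have := Real.exp_one_lt_d9
      linarith
    · intro v hv
      rw [Finset.mem_filter] at hv
      rw [hg]
      exact (hmem v hv.1).2.2.2.2.1
    · intro v hv v' hv' hne hle
      rw [Finset.mem_filter] at hv hv'
      obtain ⟨v1, v2, v3, v4, v5, v6⟩ := hmem v hv.1
      obtain ⟨u1, u2, u3, u4, u5, u6⟩ := hmem v' hv'.1
      have hE : EE v.1 1 v'.1 1 v.2.1 v.2.2.1 v.2.2.2 v'.2.1 v'.2.2.1 v'.2.2.2 ≠ 0 := by
        intro hE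
        by_cases hjl : v.1 = v'.1
        · rw [← hjl] at hE
          obtain ⟨e1, e2⟩ := EE_same_zero v.1 (hJ _ v1) _ _ _ _ _ _ hE
          obtain ⟨e3, e4, e5⟩ := prim_eq _ _ _ _ _ _ v3 u3 v4 u4 e1 e2
          apply hne
          exact Prod.ext hjl (Prod.ext e3 (Prod.ext e4 e5))
        · obtain ⟨e1, e2⟩ := EE_ne v.1 1 v'.1 1 (hJ _ v1) le_rfl (hJ _ u1) le_rfl _ _ _ _ _ _ v2 u2
            (ne_of_gt v3) (ne_of_gt u3) hE
          omega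
      have hq := hH0 (v.1, v'.1) (Finset.mem_product.2 ⟨v1, u1⟩)
      have b1 : ∀ a b d : ℤ, |(a : ℝ)| ≤ ht a b d ∧ |(b : ℝ)| ≤ ht a b d ∧ |(d : ℝ)| ≤ ht a b d :=
        fun a b d => ⟨le_max_left _ _, (le_max_left _ _).trans (le_max_right _ _),
          (le_max_right _ _).trans (le_max_right _ _)⟩
      rw [hg] at hle ⊢
      have hge := hv.2
      rw [hg, hH] at hge
      simp only at hge hle ⊢
      refine hf (v.1, v'.1) v1 u1 t _ _ (hq.trans ((le_max_left _ _).trans hge)) ?_ hle _ _ _ _ _ _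
        hE (b1 _ _ _).1 (b1 _ _ _).2.1 (b1 _ _ _).2.2 (b1 _ _ _).1 (b1 _ _ _).2.1 (b1 _ _ _).2.2
        v6 u6
      have := (le_max_right _ _).trans hge
      linarith
  linarith

end Pool.Agent.H118.EP
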