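import Mathlib
import Pool.Agent.H118.EP.Core
import Pool.Agent.H301R2.SSE.Forms
import Pool.Agent.H297R2.InBakerThm

set_option autoImplicit false

/-!
# Exponentials which are linear forms in logarithms
-/

namespace Pool.Agent.H118.EP

open Finset Pool.Agent.H340R2.LW Pool.Agent.H301R2.SSE

/-- a nonzero logarithm of an algebraic number -/
def NZLog (u : ℂ) : Prop := u ≠ 0 ∧ IsAlgebraic ℚ (Complex.exp u)

/-- `1, e^α, u` are linearly dependent over the field of algebraic numbers -/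
def DepL (α u : ℂ) : Prop :=
  ¬ LinearIndependent (algebraicClosure ℚ ℂ) ![(1 : ℂ), Complex.exp α, u]

theorem NZLog.transc {u : ℂ} (hu : NZLog u) : Transcendental ℚ u := fun h =>
  transcendental_cexp u h hu.1 hu.2

theorem DepL.repr' {α u : ℂ} (hu : Transcendental ℚ u) (h : DepL α u) : ∃ A B : ℂ,
    IsAlgebraic ℚ A ∧ IsAlgebraic ℚ B ∧ Complex.exp α = A + B * u := by
  unfold DepL at h
  rw [Fintype.not_linearIndependent_iff] at h
  obtain ⟨g, hg, i, hi⟩ := h
  rw [Fin.sum_univ_three] at hg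
  simp only [Matrix.cons_val_zero, Matrix.cons_val_one, Matrix.cons_val] at hg
  change (g 0 : ℂ) * 1 + (g 1 : ℂ) * Complex.exp α + (g 2 : ℂ) * u = 0 at hg
  have h0 : IsAlgebraic ℚ (g 0 : ℂ) := alg_K _
  have h1 : IsAlgebraic ℚ (g 1 : ℂ) := alg_K _
  have h2 : IsAlgebraic ℚ (g 2 : ℂ) := alg_K _
  have hg1 : (g 1 : ℂ) ≠ 0 := by
    intro h
    rw [h, zero_mul, add_zero, mul_one] at hg
    by_cases hg2 : (g 2 : ℂ) = 0
    · rw [hg2, zero_mul, add_zero] at hg
      fin_cases i
      · exact hi (Subtype.ext hg)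
      · exact hi (Subtype.ext h)
      · exact hi (Subtype.ext hg2)
    · apply hu
      have e : u = - (g 0 : ℂ) * (g 2 : ℂ)⁻¹ := by
        field_simp
        linear_combination hg
      rw [e]
      exact h0.neg.mul h2.inv
  refine ⟨-(g 0 : ℂ) * (g 1 : ℂ)⁻¹, -(g 2 : ℂ) * (g 1 : ℂ)⁻¹, h0.neg.mul h1.inv,
    h2.neg.mul h1.inv, ?_⟩
  field_simp
  linear_combination hg

theorem DepL.repr {α u : ℂ} (hu : NZLog u) (h : DepL α u) : ∃ A B : ℂ, IsAlgebraic ℚ A ∧
    IsAlgebraic ℚ B ∧ Complex.exp α = A + B * u := h.repr' hu.transc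

theorem DepL.of_repr {α u A B : ℂ} (hA : IsAlgebraic ℚ A) (hB : IsAlgebraic ℚ B)
    (h : Complex.exp α = A + B * u) : DepL α u := by
  unfold DepL
  rw [Fintype.not_linearIndependent_iff]
  refine ⟨![⟨A, mem_K hA⟩, -1, ⟨B, mem_K hB⟩], ?_, 1, by simp⟩
  rw [Fin.sum_univ_three]
  simp only [Matrix.cons_val_zero, Matrix.cons_val_one, Matrix.cons_val]
  change (A : ℂ) * 1 + (-1 : ℂ) * Complex.exp α + (B : ℂ) * u = 0
  rw [h]
  ring

theorem coef_ne {α u A B : ℂ} (hα : IsAlgebraic ℚ α) (hα0 : α ≠ 0) (hA : IsAlgebraic ℚ A)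
    (h : Complex.exp α = A + B * u) : B ≠ 0 := by
  rintro rfl
  apply transcendental_cexp α hα hα0
  rw [h]
  simpa using hA

/-- one logarithm -/
theorem one_exponent {α β u : ℂ} (hα : IsAlgebraic ℚ α) (hβ : IsAlgebraic ℚ β) (hα0 : α ≠ 0)
    (hβ0 : β ≠ 0) (hu : NZLog u) (h1 : DepL α u) (h2 : DepL β u) : α = β := by
  obtain ⟨A, B, hA, hB, hAB⟩ := h1.repr hu
  obtain ⟨A', B', hA', hB', hAB'⟩ := h2.repr hu
  have hB0 := coef_ne hα hα0 hA hAB
  have hB'0 := coef_ne hβ hβ0 hA' hAB'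
  by_contra hne
  obtain ⟨-, h3, -⟩ := exp_linearIndependent_aux α β (-(B' * A) + B * A') B' (-B) hα hβ hα0 hβ0 hne
    (((hB'.mul hA).neg).add (hB.mul hA')) hB' hB.neg (by rw [hAB, hAB']; ring)
  exact hB'0 h3

/-- one exponential -/
theorem one_log {α u v : ℂ} (hα : IsAlgebraic ℚ α) (hα0 : α ≠ 0) (hu : NZLog u) (hv : NZLog v)
    (h1 : DepL α u) (h2 : DepL α v) : ∃ r : ℚ, v = r * u := by
  obtain ⟨A, B, hA, hB, hAB⟩ := h1.repr hu
  obtain ⟨A', B', hA', hB', hAB'⟩ := h2.repr hv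
  have hB0 := coef_ne hα hα0 hA hAB
  by_contra hcon
  push Not at hcon
  have hli : LinearIndependent ℚ (![u, v] : Fin 2 → ℂ) := by
    rw [LinearIndependent.pair_iff]
    intro s t hst
    rw [Rat.smul_def, Rat.smul_def] at hst
    by_cases ht : t = 0
    · subst ht
      rw [Rat.cast_zero, zero_mul, add_zero] at hst
      have := (mul_eq_zero.1 hst).resolve_right hu.1
      exact ⟨by exact_mod_cast this, rfl⟩
    · exfalso
      have htC : (t : ℂ) ≠ 0 := by exact_mod_cast ht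
      apply hcon (-s / t)
      push_cast
      field_simp
      linear_combination hst
  obtain ⟨-, h3⟩ := Pool.Agent.H297R2.baker_inhom (![u, v] : Fin 2 → ℂ) (by
    intro i
    fin_cases i
    · exact hu.2
    · exact hv.2) hli (A - A') (hA.sub hA') ![B, -B'] (by
    intro i
    fin_cases i
    · exact hB
    · exact hB'.neg) (by
    rw [Fin.sum_univ_two]
    simp only [Matrix.cons_val_zero, Matrix.cons_val_one]
    linear_combination hAB' - hAB)
  exact hB0 (h3 0)

/-- the exponentials are linear forms in logarithms -/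
theorem DepL.mem {α u : ℂ} (hu : NZLog u) (h : DepL α u) : Complex.exp α ∈ Lt := by
  obtain ⟨A, B, hA, hB, hAB⟩ := h.repr hu
  rw [hAB]
  exact Lt.add_mem (Lt_alg hA) (Lt_mul hB (Lt_log hu.2))

/-- every difference occurs at most twice -/
theorem no_three {δ : ℂ} (hδ : IsAlgebraic ℚ δ) (hδ0 : δ ≠ 0) (b : Fin 3 → ℂ)
    (hb : ∀ i, IsAlgebraic ℚ (b i)) (hinj : Function.Injective b)
    (h1 : ∀ i, Complex.exp (b i) ∈ Lt) (h2 : ∀ i, Complex.exp (b i + δ) ∈ Lt) : False := by
  refine strong_six ![1, Complex.exp δ] (fun i => Complex.exp (b i)) ?_ ?_ ?_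
  · intro x y hx hy hxy
    simp only [Matrix.cons_val_zero, Matrix.cons_val_one, mul_one] at hxy
    have hy0 : y = 0 := by
      by_contra hne
      apply transcendental_cexp δ hδ hδ0
      have : Complex.exp δ = -x * y⁻¹ := by
        field_simp
        linear_combination hxy
      rw [this]
      exact hx.neg.mul hy.inv
    subst hy0
    simpa using hxy
  · intro c hc hsum j
    exact lindemann_weierstrass Finset.univ b c (fun i _ => hb i) (fun i _ => hc i)
      (fun i _ j _ hij => hinj hij) hsum j (Finset.mem_univ j)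
  · intro i j
    fin_cases i
    · simpa using h1 j
    · have := h2 j
      rw [Complex.exp_add, mul_comm] at this
      simpa using this

/-- arithmetic progressions -/
theorem count_ap {α β : ℂ} (hα : IsAlgebraic ℚ α) (hβ : IsAlgebraic ℚ β) (hα0 : α ≠ 0) (M : ℕ)
    (a : ℤ) (T : Finset ℤ) (hT : ∀ n ∈ T, a ≤ n ∧ n ≤ a + M)
    (h : ∀ n ∈ T, Complex.exp (β + n * α) ∈ Lt) : T.card * T.card - T.card ≤ 4 * M := by
  classical
  rw [← Finset.offDiag_card]
  have hmaps : ∀ p ∈ T.offDiag, p.2 - p.1 ∈ (Finset.Icc (-(M : ℤ)) M).erase 0 := by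
    rintro ⟨n, n'⟩ hp
    rw [Finset.mem_offDiag] at hp
    obtain ⟨hp1, hp2, hp3⟩ := hp
    simp only at hp1 hp2 hp3 ⊢
    rw [Finset.mem_erase, Finset.mem_Icc]
    have h1 := hT n hp1
    have h2 := hT n' hp2
    exact ⟨fun h0 => hp3 (by omega), by omega, by omega⟩
  have hfib : ∀ d ∈ (Finset.Icc (-(M : ℤ)) M).erase 0,
      (T.offDiag.filter (fun p => p.2 - p.1 = d)).card ≤ 2 := by
    intro d hd
    rw [Finset.mem_erase] at hd
    by_contra hcon
    push Not at hcon
    obtain ⟨x, y, z, hx, hy, hz, hxy, hxz, hyz⟩ := Finset.two_lt_card_iff.1 hcon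
    rw [Finset.mem_filter, Finset.mem_offDiag] at hx hy hz
    have hdC : (d : ℂ) ≠ 0 := by exact_mod_cast hd.1
    have hne : ∀ u v : ℤ × ℤ, u.2 - u.1 = d → v.2 - v.1 = d → u ≠ v → u.1 ≠ v.1 := by
      intro u v hu hv huv h0
      exact huv (Prod.ext h0 (by omega))
    have halgZ : ∀ n : ℤ, IsAlgebraic ℚ (n : ℂ) := fun n => isAlgebraic_intCast n
    refine no_three (δ := d * α) ((halgZ d).mul hα) (mul_ne_zero hdC hα0)
      ![β + x.1 * α, β + y.1 * α, β + z.1 * α] ?_ ?_ ?_ ?_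
    · intro i
      fin_cases i
      · exact hβ.add ((halgZ _).mul hα)
      · exact hβ.add ((halgZ _).mul hα)
      · exact hβ.add ((halgZ _).mul hα)
    · have hinj : ∀ m n : ℤ, β + m * α = β + n * α → m = n := by
        intro m n hmn
        have h3 := mul_right_cancel₀ hα0 (add_left_cancel hmn)
        exact_mod_cast h3
      have e1 := hne x y hx.2 hy.2 hxy
      have e2 := hne x z hx.2 hz.2 hxz
      have e3 := hne y z hy.2 hz.2 hyz
      intro i j hij
      fin_cases i <;> fin_cases j <;>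
        first
        | rfl
        | (simp only [Fin.zero_eta, Fin.isValue, Fin.mk_one, Fin.reduceFinMk, Matrix.cons_val_zero,
            Matrix.cons_val_one, Matrix.cons_val] at hij
           have h4 := hinj _ _ hij
           first
           | exact absurd h4 e1
           | exact absurd h4 e2
           | exact absurd h4 e3
           | exact absurd h4.symm e1
           | exact absurd h4.symm e2
           | exact absurd h4.symm e3)
    · intro i
      fin_cases i
      · exact h _ hx.1.1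
      · exact h _ hy.1.1
      · exact h _ hz.1.1
    · have key : ∀ u : ℤ × ℤ, u.2 - u.1 = d → β + u.1 * α + d * α = β + u.2 * α := by
        intro u hu
        rw [← hu]
        push_cast
        ring
      intro i
      fin_cases i
      · have := h _ hx.1.2.1
        rw [← key x hx.2] at this
        exact this
      · have := h _ hy.1.2.1
        rw [← key y hy.2] at this
        exact this
      · have := h _ hz.1.2.1
        rw [← key z hz.2] at this
        exact this
  have hcard := Finset.card_le_mul_card_image_of_maps_to hmaps 2 hfib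
  have h5 : ((Finset.Icc (-(M : ℤ)) M).erase 0).card = 2 * M := by
    rw [Finset.card_erase_of_mem (by rw [Finset.mem_Icc]; omega), Int.card_Icc]
    omega
  rw [h5] at hcard
  omega

/-- a nonzero algebraic multiple of a logarithm of an algebraic number -/
def LogMul (u : ℂ) : Prop :=
  u ≠ 0 ∧ ∃ b : ℂ, b ≠ 0 ∧ IsAlgebraic ℚ b ∧ IsAlgebraic ℚ (Complex.exp (b * u))

theorem DepL.smul {α u b : ℂ} (hb : b ≠ 0) (hbalg : IsAlgebraic ℚ b) (hu : NZLog (b * u))
    (h : DepL α u) : DepL α (b * u) := by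
  have htr : Transcendental ℚ u := fun h2 => hu.transc (hbalg.mul h2)
  obtain ⟨A, B, hA, hB, hAB⟩ := h.repr' htr
  refine DepL.of_repr hA (hB.mul hbalg.inv) ?_
  rw [hAB]
  field_simp

theorem one_exponent' {α β u : ℂ} (hα : IsAlgebraic ℚ α) (hβ : IsAlgebraic ℚ β) (hα0 : α ≠ 0)
    (hβ0 : β ≠ 0) (hu : LogMul u) (h1 : DepL α u) (h2 : DepL β u) : α = β := by
  obtain ⟨hu0, b, hb, hbalg, hbe⟩ := hu
  have h3 : NZLog (b * u) := ⟨mul_ne_zero hb hu0, hbe⟩
  exact one_exponent hα hβ hα0 hβ0 h3 (h1.smul hb hbalg h3) (h2.smul hb hbalg h3)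

theorem one_log' {α u v : ℂ} (hα : IsAlgebraic ℚ α) (hα0 : α ≠ 0) (hu : LogMul u) (hv : LogMul v)
    (h1 : DepL α u) (h2 : DepL α v) : ∃ r : ℂ, IsAlgebraic ℚ r ∧ v = r * u := by
  obtain ⟨hu0, b, hb, hbalg, hbe⟩ := hu
  obtain ⟨hv0, c, hc, hcalg, hce⟩ := hv
  have h3 : NZLog (b * u) := ⟨mul_ne_zero hb hu0, hbe⟩
  have h4 : NZLog (c * v) := ⟨mul_ne_zero hc hv0, hce⟩
  obtain ⟨r, hr⟩ := one_log hα hα0 h3 h4 (h1.smul hb hbalg h3) (h2.smul hc hcalg h4)
  refine ⟨r * b * c⁻¹, ?_, ?_⟩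
  · have h5 : IsAlgebraic ℚ (r : ℂ) := by
      have h := isAlgebraic_algebraMap (R := ℚ) (A := ℂ) r
      rwa [eq_ratCast] at h
    exact (h5.mul hbalg).mul hcalg.inv
  · field_simp
    linear_combination hr

theorem mem_of_logMul {α u : ℂ} (hu : LogMul u) (h : DepL α u) : Complex.exp α ∈ Lt := by
  obtain ⟨hu0, b, hb, hbalg, hbe⟩ := hu
  have h3 : NZLog (b * u) := ⟨mul_ne_zero hb hu0, hbe⟩
  exact DepL.mem h3 (h.smul hb hbalg h3)

theorem logMul_pi : LogMul (Real.pi : ℂ) := by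
  refine ⟨by exact_mod_cast Real.pi_ne_zero, Complex.I, Complex.I_ne_zero, isAlgebraic_I, ?_⟩
  rw [mul_comm, Complex.exp_pi_mul_I]
  exact isAlgebraic_one.neg

end Pool.Agent.H118.EP
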